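import Mathlib

/-!
MP_300f36_lc: strong and middle pushdown space for nonregular languages.

Q1 is answered for all eight cases (four machine classes, two space modes).  The tight bound for
the recognition of nonregular languages is
* `n` in the strong mode, for each of the four classes;
* `n` in the middle mode, for one-way and for realtime nondeterministic pushdown automata;
* `log log n` in the middle mode, for one-way and for realtime alternating pushdown automata.

Lower bounds.  If every computation on every accepted input (with the convention that for the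
strong mode every input counts) stays below `o(n)`, then a run through a configuration of large
height has two nested levels with equal surfaces (on the way up and on the way down), and pumping
between them gives inputs of length `A + k B` with a configuration of height at least `k`; hence
heights are bounded and the language is regular.  For middle alternating space, a shortest word
accepted with height `g + 1` but not with height `g` is at most doubly exponentially long in `g`.

Upper bound `log log n` (realtime alternating, middle mode).  The words are sequences of blocks of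
`k` bits.  The machine guesses universally a number `j` of `k` bits, and verifies that after each
block with value greater than `j` (and after the first block) the first block of value at least `j`
exists and has value exactly `j`.  This forces at least `2 ^ (2 ^ k)` blocks, and the ruler
sequence satisfies it; the store never holds more than `k` symbols on accepted inputs.
-/

set_option autoImplicit false
set_option linter.unusedVariables false
set_option linter.unusedSimpArgs false
set_option maxHeartbeats 4000000

namespace Pool.Agent.Results.MP_300f36_lc.PushdownSpace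

open Filter Asymptotics Relation

/-- A one-way alternating pushdown automaton over the input alphabet `α`. -/
structure APDA (α : Type) where
  /-- states -/
  Q : Type
  /-- pushdown symbols -/
  Γ : Type
  finQ : Finite Q
  finΓ : Finite Γ
  /-- initial state -/
  start : Q
  /-- accepting (halting) states -/
  acc : Q → Prop
  /-- universal states; all other states are existential -/
  univ : Q → Prop
  /-- Moves in a given state, for a given scanned symbol (`none` is the right endmarker) and a
  given top symbol of the store (`none` if the store is empty).  The move `(q', l, b)` goes to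
  state `q'`, replaces the top symbol by the word `l`, and moves the head to the right exactly
  if `b = true`. -/
  δ : Q → Option α → Option Γ → Set (Q × List Γ × Bool)
  finδ : ∀ q a X, (δ q a X).Finite

namespace APDA

/-- A configuration: state, unread part of the input, pushdown store (top first). -/
abbrev Cfg {α : Type} (M : APDA α) : Type := M.Q × List α × List M.Γ

/-- The initial configuration on input `w`, with empty store. -/
def init {α : Type} (M : APDA α) (w : List α) : M.Cfg := (M.start, w, [])

/-- One step: possible only in a state that is not accepting; the head never moves past the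
right endmarker. -/
def Step {α : Type} (M : APDA α) (c c' : M.Cfg) : Prop :=
  ¬ M.acc c.1 ∧ ∃ l : List M.Γ, ∃ b : Bool,
    (c'.1, l, b) ∈ M.δ c.1 c.2.1.head? c.2.2.head? ∧
    c'.2.2 = l ++ c.2.2.tail ∧
    ((b = false ∧ c'.2.1 = c.2.1) ∨ (b = true ∧ c.2.1 ≠ [] ∧ c'.2.1 = c.2.1.tail))

/-- Reachability by finitely many steps. -/
def Reach {α : Type} (M : APDA α) : M.Cfg → M.Cfg → Prop := ReflTransGen M.Step

/-- The configuration is the root of an accepting computation tree: all leaves are in accepting
states, an existential configuration has one successor in the tree, a universal configuration has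
at least one successor and all its successors are in the tree. -/
inductive Acc {α : Type} (M : APDA α) : M.Cfg → Prop
  | final (c : M.Cfg) : M.acc c.1 → Acc M c
  | exist (c c' : M.Cfg) : ¬ M.univ c.1 → M.Step c c' → Acc M c' → Acc M c
  | all (c : M.Cfg) : M.univ c.1 → (∃ c', M.Step c c') →
      (∀ c', M.Step c c' → Acc M c') → Acc M c

/-- The recognised language. -/
def lang {α : Type} (M : APDA α) : Language α := {w | M.Acc (M.init w)}

end APDA

namespace APDA

/-- `s` is a strong space bound of `M`: on every input of length `n`, every configuration of every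
computation has store height at most `s n`. -/
def StrongBound {α : Type} (M : APDA α) (s : ℕ → ℕ) : Prop :=
  ∀ w c, M.Reach (M.init w) c → c.2.2.length ≤ s w.length

/-- `s` is a middle space bound of `M`: on every accepted input of length `n`, every configuration
of every computation has store height at most `s n`. -/
def MiddleBound {α : Type} (M : APDA α) (s : ℕ → ℕ) : Prop :=
  ∀ w ∈ M.lang, ∀ c, M.Reach (M.init w) c → c.2.2.length ≤ s w.length

/-- `M` is realtime: in every computation at most `K` consecutive steps leave the head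
in place. -/
def Realtime {α : Type} (M : APDA α) : Prop :=
  ∃ K : ℕ, ∀ (w : List α) (f : ℕ → M.Cfg) (m : ℕ), M.Reach (M.init w) (f 0) →
    (∀ i < m, M.Step (f i) (f (i + 1)) ∧ (f (i + 1)).2.1 = (f i).2.1) → m ≤ K

/-- `M` is nondeterministic: it has no universal state. -/
def Nondet {α : Type} (M : APDA α) : Prop := ∀ q, ¬ M.univ q

end APDA

/-- The two space modes. -/
inductive Mode
  | strong
  | middle

/-- `s` is a space bound of `M` in the given mode. -/
def SpaceBound {α : Type} (M : APDA α) : Mode → (ℕ → ℕ) → Prop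
  | .strong, s => M.StrongBound s
  | .middle, s => M.MiddleBound s

/-- The four machine classes: one-way nondeterministic (`false false`), realtime
nondeterministic (`false true`), one-way alternating (`true false`), realtime alternating
(`true true`). -/
def InClass {α : Type} (alternating realtime : Bool) (M : APDA α) : Prop :=
  (alternating = false → M.Nondet) ∧ (realtime = true → M.Realtime)

/-- `f` is a tight bound for the recognition of nonregular languages in the given class and
space mode. -/
def TightBound (alternating realtime : Bool) (mode : Mode) (f : ℕ → ℝ) : Prop :=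
  (∃ (α : Type) (_ : Finite α) (M : APDA α) (s : ℕ → ℕ), InClass alternating realtime M ∧
    ¬ M.lang.IsRegular ∧ SpaceBound M mode s ∧ (fun n => (s n : ℝ)) =O[atTop] f) ∧
  ∀ (α : Type) (_ : Finite α) (M : APDA α) (s : ℕ → ℕ), InClass alternating realtime M →
    SpaceBound M mode s → (fun n => (s n : ℝ)) =o[atTop] f → M.lang.IsRegular

section part1

namespace APDA

/-- acceptance with all the store heights in the tree at most `h`. -/
inductive AccH {α : Type} (M : APDA α) (h : ℕ) : M.Cfg → Prop
  | final (c : M.Cfg) : c.2.2.length ≤ h → M.acc c.1 → AccH M h c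
  | exist (c c' : M.Cfg) : c.2.2.length ≤ h → ¬ M.univ c.1 → M.Step c c' →
      AccH M h c' → AccH M h c
  | all (c : M.Cfg) : c.2.2.length ≤ h → M.univ c.1 → (∃ c', M.Step c c') →
      (∀ c', M.Step c c' → AccH M h c') → AccH M h c

section basics

variable {α : Type} {M : APDA α}

theorem AccH.height {h : ℕ} {c : M.Cfg} (hc : M.AccH h c) : c.2.2.length ≤ h := by
  cases hc <;> assumption

theorem AccH.toAcc {h : ℕ} {c : M.Cfg} (hc : M.AccH h c) : M.Acc c := by
  induction hc with
  | final c _ ha => exact .final _ ha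
  | exist c c' _ hu hs _ ih => exact .exist _ _ hu hs ih
  | all c _ hu hs _ ih => exact .all _ hu hs ih

theorem AccH.mono {h h' : ℕ} (hh : h ≤ h') {c : M.Cfg} (hc : M.AccH h c) : M.AccH h' c := by
  induction hc with
  | final c h1 ha => exact .final _ (h1.trans hh) ha
  | exist c c' h1 hu hs _ ih => exact .exist _ _ (h1.trans hh) hu hs ih
  | all c h1 hu hs _ ih => exact .all _ (h1.trans hh) hu hs ih

/-- if all reachable configurations are low, acceptance is low acceptance. -/
theorem Acc.toAccH {h : ℕ} {c : M.Cfg} (hc : M.Acc c) :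
    (∀ c', M.Reach c c' → c'.2.2.length ≤ h) → M.AccH h c := by
  induction hc with
  | final c ha => intro hr; exact .final _ (hr c ReflTransGen.refl) ha
  | exist c c' hu hs _ ih =>
    intro hr
    exact .exist _ _ (hr c ReflTransGen.refl) hu hs
      (ih fun c'' h'' => hr c'' (ReflTransGen.head hs h''))
  | all c hu hs _ ih =>
    intro hr
    exact .all _ (hr c ReflTransGen.refl) hu hs
      (fun c' hc' => ih c' hc' fun c'' h'' => hr c'' (ReflTransGen.head hc' h''))

theorem accH_cons {h : ℕ} {a : α} {y y' : List α}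
    (hyy : ∀ q s, M.AccH h (q, y, s) → M.AccH h (q, y', s)) :
    ∀ c : M.Cfg, M.AccH h c → ∀ q s, c = (q, a :: y, s) → M.AccH h (q, a :: y', s) := by
  intro c hc
  induction hc with
  | final c hh hacc =>
    rintro q s rfl
    exact .final _ hh hacc
  | exist c c' hh hu hst hA ih =>
    rintro q s rfl
    obtain ⟨hna, l, b, hm, hs, hb⟩ := hst
    obtain ⟨q', u', s'⟩ := c'
    rcases hb with ⟨hb1, h1⟩ | ⟨hb1, h1, h2⟩
    · simp only at h1
      subst h1
      exact .exist _ (q', a :: y', s') hh hu ⟨hna, l, b, hm, hs, Or.inl ⟨hb1, rfl⟩⟩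
        (ih q' s' rfl)
    · simp only [List.tail_cons] at h2
      subst h2
      exact .exist _ (q', y', s') hh hu ⟨hna, l, b, hm, hs, Or.inr ⟨hb1, by simp, rfl⟩⟩
        (hyy _ _ hA)
  | all c hh hu hex hA ih =>
    rintro q s rfl
    refine .all _ hh hu ?_ ?_
    · obtain ⟨⟨q', u', s'⟩, hna, l, b, hm, hs, hb⟩ := hex
      rcases hb with ⟨hb1, h1⟩ | ⟨hb1, h1, h2⟩
      · exact ⟨(q', a :: y', s'), hna, l, b, hm, hs, Or.inl ⟨hb1, rfl⟩⟩
      · exact ⟨(q', y', s'), hna, l, b, hm, hs, Or.inr ⟨hb1, by simp, rfl⟩⟩
    · rintro ⟨q', u', s'⟩ ⟨hna, l, b, hm, hs, hb⟩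
      rcases hb with ⟨hb1, h1⟩ | ⟨hb1, h1, h2⟩
      · simp only at h1
        subst h1
        exact ih (q', a :: y, s') ⟨hna, l, b, hm, hs, Or.inl ⟨hb1, rfl⟩⟩ q' s' rfl
      · simp only [List.tail_cons] at h2
        subst h2
        exact hyy _ _ (hA (q', y, s') ⟨hna, l, b, hm, hs, Or.inr ⟨hb1, by simp, rfl⟩⟩)

/-- the profile of a suffix. -/
def profile (M : APDA α) (h : ℕ) (y : List α) : Set (M.Q × (Fin h → Option M.Γ)) :=
  {p | ∃ s : List M.Γ, s.length ≤ h ∧ p.2 = (fun i => s[i.1]?) ∧ M.AccH h (p.1, y, s)}

theorem profile_eq {h : ℕ} {y y' : List α} (he : M.profile h y = M.profile h y') :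
    ∀ q s, M.AccH h (q, y, s) → M.AccH h (q, y', s) := by
  intro q s hA
  have hl := hA.height
  have h1 : (q, fun i : Fin h => s[i.1]?) ∈ M.profile h y := ⟨s, hl, rfl, hA⟩
  rw [he] at h1
  obtain ⟨s', hl', hf, hA'⟩ := h1
  have : s = s' := by
    apply List.ext_getElem?
    intro i
    by_cases hi : i < h
    · have := congrFun hf ⟨i, hi⟩
      simpa using this
    · rw [List.getElem?_eq_none, List.getElem?_eq_none]
      · omega
      · simp only at hl; omega
  rw [this]
  exact hA'

theorem eq_profile {h : ℕ} {y y' : List α}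
    (he : ∀ q s, M.AccH h (q, y, s) ↔ M.AccH h (q, y', s)) :
    M.profile h y = M.profile h y' := by
  ext p
  constructor
  · rintro ⟨s, h1, h2, h3⟩
    exact ⟨s, h1, h2, (he _ _).1 h3⟩
  · rintro ⟨s, h1, h2, h3⟩
    exact ⟨s, h1, h2, (he _ _).2 h3⟩

theorem profile_append {h : ℕ} {y y' : List α} (he : M.profile h y = M.profile h y')
    (x : List α) : M.profile h (x ++ y) = M.profile h (x ++ y') := by
  induction x with
  | nil => exact he
  | cons a x ih =>
    apply eq_profile
    intro q s
    exact ⟨fun h1 => accH_cons (profile_eq ih) _ h1 q s rfl,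
      fun h1 => accH_cons (profile_eq ih.symm) _ h1 q s rfl⟩

/-- low-acceptance language. -/
def LH (M : APDA α) (h : ℕ) : Language α := {w | M.AccH h (M.init w)}

theorem mem_LH_of_profile {h : ℕ} {w w' : List α} (he : M.profile h w = M.profile h w') :
    w ∈ M.LH h ↔ w' ∈ M.LH h :=
  ⟨fun h1 => profile_eq he _ _ h1, fun h1 => profile_eq he.symm _ _ h1⟩

theorem LH_regular (M : APDA α) (h : ℕ) : (M.LH h).IsRegular := by
  classical
  have := M.finQ
  have := M.finΓ
  apply Language.IsRegular.of_finite_range_leftQuotient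
  let G : Set (Set (M.Q × (Fin h → Option M.Γ))) → Language α :=
    fun S => {y | M.profile h y ∈ S}
  apply (Set.finite_range G).subset
  rintro _ ⟨x, rfl⟩
  refine ⟨{P | ∃ y, x ++ y ∈ M.LH h ∧ M.profile h y = P}, ?_⟩
  ext y
  constructor
  · rintro ⟨y', h1, h2⟩
    exact (mem_LH_of_profile (profile_append h2 x)).1 h1
  · intro h1
    exact ⟨y, h1, rfl⟩

theorem LH_subset (h : ℕ) {w : List α} (hw : w ∈ M.LH h) : w ∈ M.lang :=
  AccH.toAcc hw

theorem LH_mono {h h' : ℕ} (hh : h ≤ h') {w : List α} (hw : w ∈ M.LH h) : w ∈ M.LH h' :=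
  AccH.mono hh hw

theorem lang_regular_of_bound (H : ℕ)
    (hb : ∀ w, w ∈ M.lang → w ∈ M.LH H) : M.lang.IsRegular := by
  have : M.lang = M.LH H := by
    ext w
    exact ⟨hb w, LH_subset H⟩
  rw [this]
  exact LH_regular M H

end basics

end APDA

end part1

section part2

namespace APDA

section pump

variable {α : Type} {M : APDA α}

/-- a step, required to start with nonempty store when `p` holds. -/
def RStep (M : APDA α) (p : Prop) (c c' : M.Cfg) : Prop := M.Step c c' ∧ (p → c.2.2 ≠ [])

/-- iterated `RStep`. -/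
def RR (M : APDA α) (p : Prop) : M.Cfg → M.Cfg → Prop := ReflTransGen (M.RStep p)

theorem rtg_mono {β : Type} {r p : β → β → Prop} (h : ∀ a b, r a b → p a b) {a b : β}
    (hab : ReflTransGen r a b) : ReflTransGen p a b := by
  induction hab with
  | refl => exact .refl
  | tail _ h2 ih => exact .tail ih (h _ _ h2)

theorem rtg_lift {β γ : Type} {r : β → β → Prop} {p : γ → γ → Prop} (f : β → γ)
    (h : ∀ a b, r a b → p (f a) (f b)) {a b : β}
    (hab : ReflTransGen r a b) : ReflTransGen p (f a) (f b) := by
  induction hab with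
  | refl => exact .refl
  | tail _ h2 ih => exact .tail ih (h _ _ h2)

theorem RR.trans {p : Prop} {a b c : M.Cfg} (h1 : M.RR p a b) (h2 : M.RR p b c) :
    M.RR p a c := ReflTransGen.trans h1 h2

/-- put `s` below the store. -/
abbrev ap (c : M.Cfg) (s : List M.Γ) : M.Cfg := (c.1, c.2.1, c.2.2 ++ s)

theorem reach_iff {c c' : M.Cfg} : M.Reach c c' ↔ M.RR False c c' := by
  constructor
  · intro h
    exact rtg_mono (fun a b hab => ⟨hab, fun h => h.elim⟩) h
  · intro h
    exact rtg_mono (fun a b hab => hab.1) h

theorem RR.weaken {p : Prop} {c c' : M.Cfg} (h : M.RR True c c') : M.RR p c c' :=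
  rtg_mono (fun a b hab => ⟨hab.1, fun _ => hab.2 trivial⟩) h

theorem step_append {c c' : M.Cfg} (h : M.Step c c') (hne : c.2.2 ≠ []) (s : List M.Γ) :
    M.Step (ap c s) (ap c' s) := by
  obtain ⟨q, u, a⟩ := c
  obtain ⟨q', u', b⟩ := c'
  obtain ⟨hna, l, bb, hm, hs, hb⟩ := h
  cases a with
  | nil => exact absurd rfl hne
  | cons Y a =>
    refine ⟨hna, l, bb, by simpa using hm, ?_, hb⟩
    simp only [List.tail_cons] at hs
    subst hs
    simp

theorem RR.append {c c' : M.Cfg} (h : M.RR True c c') (s : List M.Γ) (p : Prop)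
    (hp : p → True) : M.RR True (ap c s) (ap c' s) := by
  refine rtg_lift (fun c => ap c s) ?_ h
  rintro a b ⟨h1, h2⟩
  refine ⟨step_append h1 (h2 trivial) s, fun _ => ?_⟩
  have := h2 trivial
  simp [this]

theorem RR.app {c c' : M.Cfg} (h : M.RR True c c') (s : List M.Γ) :
    M.RR True (ap c s) (ap c' s) := RR.append h s True (fun h => h)

theorem head_append_congr {β : Type} {r r' v : List β} (h : r.head? = r'.head?) :
    (v ++ r).head? = (v ++ r').head? := by
  cases v with
  | nil => simpa using h
  | cons a v => simp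

theorem step_rebase {c c' : M.Cfg} (h : M.Step c c') :
    ∃ v, c.2.1 = v ++ c'.2.1 ∧ ∀ r : List α, r.head? = c'.2.1.head? →
      M.Step (c.1, v ++ r, c.2.2) (c'.1, r, c'.2.2) := by
  obtain ⟨q, u, a⟩ := c
  obtain ⟨q', u', b⟩ := c'
  obtain ⟨hna, l, bb, hm, hs, hb⟩ := h
  rcases hb with ⟨hb1, h1⟩ | ⟨hb1, h1, h2⟩
  · simp only at h1
    subst h1
    refine ⟨[], rfl, fun r hr => ⟨hna, l, bb, ?_, hs, Or.inl ⟨hb1, rfl⟩⟩⟩
    simp only at hr hm ⊢
    simpa [hr] using hm
  · cases u with
    | nil => exact absurd rfl h1
    | cons x u =>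
      simp only [List.tail_cons] at h2
      subst h2
      refine ⟨[x], rfl, fun r hr => ⟨hna, l, bb, ?_, hs, Or.inr ⟨hb1, by simp, by simp⟩⟩⟩
      simpa using hm

theorem RR.rebase {p : Prop} {c c' : M.Cfg} (h : M.RR p c c') :
    ∃ v, c.2.1 = v ++ c'.2.1 ∧ ∀ r : List α, r.head? = c'.2.1.head? →
      M.RR p (c.1, v ++ r, c.2.2) (c'.1, r, c'.2.2) := by
  induction h using ReflTransGen.head_induction_on with
  | refl => exact ⟨[], rfl, fun r hr => ReflTransGen.refl⟩
  | head h1 h2 ih =>
    obtain ⟨v2, e2, f2⟩ := ih
    obtain ⟨v1, e1, f1⟩ := step_rebase h1.1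
    refine ⟨v1 ++ v2, by rw [e1, e2, List.append_assoc], fun r hr => ?_⟩
    have hh : (v2 ++ r).head? = (v2 ++ c'.2.1).head? := head_append_congr hr
    rw [← e2] at hh
    have := f1 (v2 ++ r) hh
    rw [List.append_assoc]
    exact ReflTransGen.head ⟨this, h1.2⟩ (f2 r hr)

theorem RR.split {p : Prop} {c e : M.Cfg} (h : M.RR p c e) :
    ∀ τ σ : List M.Γ, c.2.2 = τ ++ σ →
      (∃ e' : M.Cfg, M.RR True (c.1, c.2.1, τ) e' ∧ e = ap e' σ) ∨
      (∃ (q : M.Q) (y : List α), M.RR True (c.1, c.2.1, τ) (q, y, []) ∧
        M.RR p (q, y, σ) e) := by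
  induction h using ReflTransGen.head_induction_on with
  | refl =>
    intro τ σ hτ
    left
    exact ⟨(e.1, e.2.1, τ), ReflTransGen.refl, by rw [ap, ← hτ]⟩
  | @head c c1 h1 h2 ih =>
    intro τ σ hτ
    cases τ with
    | nil =>
      right
      refine ⟨c.1, c.2.1, ReflTransGen.refl, ?_⟩
      have : ((c.1, c.2.1, σ) : M.Cfg) = c := by
        rw [show σ = c.2.2 from by simpa using hτ.symm]
      rw [this]
      exact ReflTransGen.head h1 h2
    | cons Y τ =>
      obtain ⟨⟨hna, l, bb, hm, hs, hb⟩, hp⟩ := h1
      rw [hτ] at hm hs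
      simp only [List.cons_append, List.head?_cons, List.tail_cons] at hm hs
      have hst : M.RStep True (c.1, c.2.1, Y :: τ) (c1.1, c1.2.1, l ++ τ) :=
        ⟨⟨hna, l, bb, by simpa using hm, by simp, hb⟩, by simp⟩
      rcases ih (l ++ τ) σ (by rw [hs]; simp) with ⟨e', h3, h4⟩ | ⟨q, y, h3, h4⟩
      · exact Or.inl ⟨e', ReflTransGen.head hst h3, h4⟩
      · exact Or.inr ⟨q, y, ReflTransGen.head hst h3, h4⟩

theorem exists_pushBound [Finite α] (M : APDA α) :
    ∃ D : ℕ, ∀ q a X q' l b, (q', l, b) ∈ M.δ q a X → l.length ≤ D := by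
  classical
  have := M.finQ
  have := M.finΓ
  have hf : (⋃ t : M.Q × Option α × Option M.Γ, M.δ t.1 t.2.1 t.2.2).Finite :=
    Set.finite_iUnion fun t => M.finδ _ _ _
  have hf2 := hf.image (fun x => x.2.1.length)
  obtain ⟨D, hD⟩ := hf2.bddAbove
  refine ⟨D, fun q a X q' l b h => hD ⟨(q', l, b), ?_, rfl⟩⟩
  exact Set.mem_iUnion.2 ⟨(q, a, X), h⟩

theorem next_frame {D : ℕ} (hD : ∀ q a X q' l b, (q', l, b) ∈ M.δ q a X → l.length ≤ D)
    {c0 c : M.Cfg} (h : M.RR True c0 c) (h0 : c0.2.2.length ≤ D) :
    ∀ (τ : List M.Γ) (X : M.Γ), c.2.2 = τ ++ [X] → τ ≠ [] →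
      ∃ F : M.Cfg, F.2.2.length ≤ D ∧ M.RR True c0 (ap F [X]) ∧
        M.RR True F (c.1, c.2.1, τ) := by
  induction h with
  | refl =>
    intro τ X hτ hne
    refine ⟨(c0.1, c0.2.1, τ), ?_, ?_, ReflTransGen.refl⟩
    · rw [hτ] at h0
      simp at h0
      simp only
      omega
    · rw [ap]
      simp only
      rw [← hτ]
      exact ReflTransGen.refl
  | @tail b c h1 h2 ih =>
    intro τ X hτ hne
    obtain ⟨⟨hna, l, bb, hm, hs, hb⟩, hp⟩ := h2
    obtain ⟨Y, β, hY⟩ := List.exists_cons_of_ne_nil (hp trivial)
    rw [hY] at hs hm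
    simp only [List.tail_cons, List.head?_cons] at hs hm
    rcases List.eq_nil_or_concat' β with hβ | ⟨β', X', hβ⟩
    · subst hβ
      simp only [List.append_nil] at hs
      refine ⟨(c.1, c.2.1, τ), ?_, ?_, ReflTransGen.refl⟩
      · have := hD _ _ _ _ _ _ hm
        rw [← hs, hτ] at this
        simp at this
        simp only
        omega
      · have h3 : M.RR True c0 c := ReflTransGen.tail h1 ⟨⟨hna, l, bb, by rw [hY]; simpa using hm,
          by rw [hY, hs]; simp, hb⟩, hp⟩
        have : ap (c.1, c.2.1, τ) [X] = c := by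
          rw [ap]
          simp only
          rw [← hτ]
        rw [this]
        exact h3
    · subst hβ
      rw [← List.append_assoc] at hs
      rw [hs] at hτ
      have h4 := List.append_inj' hτ rfl
      obtain ⟨h5, h6⟩ := h4
      have h6' : X' = X := by simpa using h6
      subst h6'
      obtain ⟨F, f1, f2, f3⟩ := ih (Y :: β') X' (by rw [hY]; simp) (by simp)
      refine ⟨F, f1, f2, ReflTransGen.tail f3 ⟨⟨hna, l, bb, by simpa using hm, ?_, hb⟩, by simp⟩⟩
      simp only [List.tail_cons]
      exact h5.symm

theorem first_frame {D : ℕ} (hD : ∀ q a X q' l b, (q', l, b) ∈ M.δ q a X → l.length ≤ D)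
    {c0 c : M.Cfg} (h : M.RR False c0 c) (h0 : c0.2.2 = []) (hc : c.2.2 ≠ []) :
      ∃ F : M.Cfg, F.2.2.length ≤ D ∧ M.RR False c0 F ∧ M.RR True F c := by
  induction h with
  | refl => exact absurd h0 hc
  | @tail b c h1 h2 ih =>
    by_cases hb : b.2.2 = []
    · refine ⟨c, ?_, ReflTransGen.tail h1 h2, ReflTransGen.refl⟩
      obtain ⟨⟨hna, l, bb, hm, hs, hb'⟩, hp⟩ := h2
      rw [hb] at hs
      simp only [List.tail_nil, List.append_nil] at hs
      rw [hs]
      exact hD _ _ _ _ _ _ hm
    · obtain ⟨F, f1, f2, f3⟩ := ih hb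
      exact ⟨F, f1, f2, ReflTransGen.tail f3 ⟨h2.1, fun _ => hb⟩⟩

/-- outcomes of a run above the base. -/
def Out (M : APDA α) (fin : M.Q → Prop) (c : M.Cfg) : Option (M.Q × List α) → Prop
  | none => ∃ e, M.RR True c e ∧ fin e.1
  | some x => M.RR True c (x.1, x.2, [])

/-- link between levels. -/
def Link (M : APDA α) (fin : M.Q → Prop) (F : M.Cfg) (o : Option (M.Q × List α))
    (F' : M.Cfg) (o' : Option (M.Q × List α)) (ρ : List M.Γ) : Prop :=
  M.RR True F (ap F' ρ) ∧
    (o' = none → o = none) ∧ (∀ x, o' = some x → M.Out fin (x.1, x.2, ρ) o)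

theorem Link.trans {fin : M.Q → Prop} {F F' F'' : M.Cfg} {o o' o'' : Option (M.Q × List α)}
    {ρ ρ' : List M.Γ} (h1 : M.Link fin F o F' o' ρ) (h2 : M.Link fin F' o' F'' o'' ρ') :
    M.Link fin F o F'' o'' (ρ' ++ ρ) := by
  obtain ⟨a1, a2, a3⟩ := h1
  obtain ⟨b1, b2, b3⟩ := h2
  refine ⟨?_, fun h => a2 (b2 h), fun x hx => ?_⟩
  · have := RR.app b1 ρ
    refine RR.trans a1 ?_
    simpa [ap, List.append_assoc] using this
  · have h3 := b3 x hx
    cases o' with
    | none =>
      rw [a2 rfl]
      obtain ⟨e, h4, h5⟩ := h3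
      exact ⟨ap e ρ, RR.app h4 ρ, h5⟩
    | some y =>
      have h4 := RR.app h3 ρ
      have h5 := a3 y rfl
      cases o with
      | none =>
        obtain ⟨e, h6, h7⟩ := h5
        exact ⟨e, RR.trans h4 (by simpa [ap] using h6), h7⟩
      | some z =>
        exact RR.trans h4 (by simpa [ap, Out] using h5)

/-- base data of a level. -/
def Base (M : APDA α) (fin : M.Q → Prop) (w : List α) (F : M.Cfg)
    (o : Option (M.Q × List α)) : Prop :=
  ∃ s, M.RR False (M.init w) (ap F s) ∧
    ∀ x, o = some x → ∃ e, M.RR False (x.1, x.2, s) e ∧ fin e.1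

theorem Base.link {fin : M.Q → Prop} {w : List α} {F F' : M.Cfg}
    {o o' : Option (M.Q × List α)} {ρ : List M.Γ} (h1 : M.Base fin w F o)
    (h2 : M.Link fin F o F' o' ρ) : M.Base fin w F' o' := by
  obtain ⟨s, a1, a2⟩ := h1
  obtain ⟨b1, b2, b3⟩ := h2
  refine ⟨ρ ++ s, ?_, fun x hx => ?_⟩
  · have := RR.weaken (p := False) (RR.app b1 s)
    refine RR.trans a1 ?_
    simpa [ap, List.append_assoc] using this
  · have h3 := b3 x hx
    cases o with
    | none =>
      obtain ⟨e, h4, h5⟩ := h3
      exact ⟨ap e s, RR.weaken (RR.app h4 s), h5⟩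
    | some y =>
      obtain ⟨e, h6, h7⟩ := a2 y rfl
      have h4 := RR.weaken (p := False) (RR.app h3 s)
      exact ⟨e, RR.trans h4 (by simpa [ap] using h6), h7⟩

theorem next_level {D : ℕ} (hD : ∀ q a X q' l b, (q', l, b) ∈ M.δ q a X → l.length ≤ D)
    {fin : M.Q → Prop} {q : M.Q} {u : List α} {F : M.Cfg} {o : Option (M.Q × List α)}
    {τ : List M.Γ} {X : M.Γ} (hF : F.2.2.length ≤ D) (h1 : M.RR True F (q, u, τ ++ [X]))
    (h2 : M.Out fin (q, u, τ ++ [X]) o) (hτ : τ ≠ []) :
    ∃ (F' : M.Cfg) (o' : Option (M.Q × List α)), F'.2.2.length ≤ D ∧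
      M.RR True F' (q, u, τ) ∧ M.Out fin (q, u, τ) o' ∧ M.Link fin F o F' o' [X] := by
  obtain ⟨F', f1, f2, f3⟩ := next_frame hD h1 hF τ X rfl hτ
  cases o with
  | none =>
    obtain ⟨e, h3, h4⟩ := h2
    rcases RR.split h3 τ [X] rfl with ⟨e', h5, h6⟩ | ⟨p, y, h5, h6⟩
    · refine ⟨F', none, f1, f3, ⟨e', h5, ?_⟩, f2, fun _ => rfl, fun x hx => by simp at hx⟩
      rw [h6] at h4
      exact h4
    · refine ⟨F', some (p, y), f1, f3, h5, f2, fun h => by simp at h, fun x hx => ?_⟩
      simp only [Option.some.injEq] at hx
      subst hx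
      exact ⟨e, h6, h4⟩
  | some z =>
    rcases RR.split h2 τ [X] rfl with ⟨e', h5, h6⟩ | ⟨p, y, h5, h6⟩
    · exfalso
      have := congrArg (fun c => c.2.2) h6
      simp [ap] at this
    · refine ⟨F', some (p, y), f1, f3, h5, f2, fun h => by simp at h, fun x hx => ?_⟩
      simp only [Option.some.injEq] at hx
      subst hx
      exact h6

theorem exists_chain {D : ℕ} (hD : ∀ q a X q' l b, (q', l, b) ∈ M.δ q a X → l.length ≤ D)
    {fin : M.Q → Prop} {q : M.Q} {u : List α} :
    ∀ (n : ℕ) (F : M.Cfg) (o : Option (M.Q × List α)) (τ : List M.Γ), F.2.2.length ≤ D →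
      M.RR True F (q, u, τ) → M.Out fin (q, u, τ) o → n + 1 ≤ τ.length →
      ∃ ch : ℕ → M.Cfg × Option (M.Q × List α), ch 0 = (F, o) ∧
        (∀ i < n, ∃ X, M.Link fin (ch i).1 (ch i).2 (ch (i + 1)).1 (ch (i + 1)).2 [X]) ∧
        (∀ i ≤ n, (ch i).1.2.2.length ≤ D ∧ M.Out fin (ch i).1 (ch i).2) := by
  intro n
  induction n with
  | zero =>
    intro F o τ hF h1 h2 h3
    refine ⟨fun _ => (F, o), rfl, fun i hi => by omega, fun i _ => ⟨hF, ?_⟩⟩
    cases o with
    | none =>
      obtain ⟨e, h4, h5⟩ := h2
      exact ⟨e, ReflTransGen.trans h1 h4, h5⟩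
    | some z => exact ReflTransGen.trans h1 h2
  | succ n ih =>
    intro F o τ hF h1 h2 h3
    rcases List.eq_nil_or_concat' τ with hτ | ⟨τ', X, hτ⟩
    · subst hτ
      simp at h3
    · subst hτ
      simp only [List.length_append, List.length_cons, List.length_nil] at h3
      have hne : τ' ≠ [] := by
        rintro rfl
        simp at h3
      obtain ⟨F', o', g1, g2, g3, g4⟩ := next_level hD hF h1 h2 hne
      obtain ⟨ch, c1, c2, c3⟩ := ih F' o' τ' g1 g2 g3 (by omega)
      refine ⟨fun i => Nat.casesOn i (F, o) (fun j => ch j), rfl, ?_, ?_⟩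
      · intro i hi
        cases i with
        | zero =>
          refine ⟨X, ?_⟩
          simp only [c1]
          exact g4
        | succ i => exact c2 i (by omega)
      · intro i hi
        cases i with
        | zero =>
          refine ⟨hF, ?_⟩
          simp only
          cases o with
          | none =>
            obtain ⟨e, h4, h5⟩ := h2
            exact ⟨e, ReflTransGen.trans h1 h4, h5⟩
          | some z => exact ReflTransGen.trans h1 h2
        | succ i => exact c3 i (by omega)

theorem chain_link {fin : M.Q → Prop} {n : ℕ} {ch : ℕ → M.Cfg × Option (M.Q × List α)}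
    (h : ∀ i < n, ∃ X, M.Link fin (ch i).1 (ch i).2 (ch (i + 1)).1 (ch (i + 1)).2 [X])
    (i : ℕ) : ∀ d, 1 ≤ d → i + d ≤ n →
      ∃ ρ : List M.Γ, ρ.length = d ∧ M.Link fin (ch i).1 (ch i).2 (ch (i + d)).1 (ch (i + d)).2 ρ := by
  intro d
  induction d with
  | zero => intro h1; omega
  | succ d ih =>
    intro h1 h2
    rcases Nat.eq_zero_or_pos d with hd | hd
    · subst hd
      obtain ⟨X, hX⟩ := h i (by omega)
      exact ⟨[X], rfl, by simpa using hX⟩
    · obtain ⟨ρ, r1, r2⟩ := ih hd (by omega)
      obtain ⟨X, hX⟩ := h (i + d) (by omega)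
      exact ⟨[X] ++ ρ, by simp [r1], Link.trans r2 hX⟩

theorem chain_base {fin : M.Q → Prop} {n : ℕ} {w : List α}
    {ch : ℕ → M.Cfg × Option (M.Q × List α)}
    (h : ∀ i < n, ∃ X, M.Link fin (ch i).1 (ch i).2 (ch (i + 1)).1 (ch (i + 1)).2 [X])
    (h0 : M.Base fin w (ch 0).1 (ch 0).2) : ∀ i ≤ n, M.Base fin w (ch i).1 (ch i).2 := by
  intro i
  induction i with
  | zero => intro _; exact h0
  | succ i ih =>
    intro hi
    obtain ⟨X, hX⟩ := h i (by omega)
    exact Base.link (ih (by omega)) hX

end pump

end APDA

end part2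

section part3

/-- powers of a word. -/
def pw {β : Type} (v : List β) : ℕ → List β
  | 0 => []
  | k + 1 => v ++ pw v k

theorem pw_length {β : Type} (v : List β) (k : ℕ) : (pw v k).length = k * v.length := by
  induction k with
  | zero => simp [pw]
  | succ k ih => rw [pw, List.length_append, ih]; ring

theorem pw_succ' {β : Type} (v : List β) (k : ℕ) : pw v (k + 1) = pw v k ++ v := by
  induction k with
  | zero => simp [pw]
  | succ k ih =>
    conv_lhs => rw [pw, ih]
    rw [← List.append_assoc]
    rfl

theorem pw_head {β : Type} {v : List β} {a : Option β}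
    (hv : ∀ r : List β, r.head? = a → (v ++ r).head? = a) (k : ℕ) (r : List β)
    (hr : r.head? = a) : (pw v k ++ r).head? = a := by
  induction k with
  | zero => simpa [pw] using hr
  | succ k ih =>
    rw [pw, List.append_assoc]
    exact hv _ ih

namespace APDA

section pump2

variable {α : Type} {M : APDA α}

theorem up_pump {q : M.Q} {v : List α} {l ρ : List M.Γ} {a : Option α}
    (hup : ∀ r : List α, r.head? = a → M.RR True (q, v ++ r, l) (q, r, l ++ ρ))
    (hv : ∀ r : List α, r.head? = a → (v ++ r).head? = a) :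
    ∀ (k : ℕ) (r : List α) (s : List M.Γ), r.head? = a →
      M.RR False (q, pw v k ++ r, l ++ s) (q, r, l ++ (pw ρ k ++ s)) := by
  intro k
  induction k with
  | zero =>
    intro r s hr
    exact ReflTransGen.refl
  | succ k ih =>
    intro r s hr
    have h1 := RR.weaken (p := False) (RR.app (hup (pw v k ++ r) (pw_head hv k r hr)) s)
    have h2 := ih r (ρ ++ s) hr
    rw [pw_succ' ρ k]
    refine RR.trans (b := (q, pw v k ++ r, l ++ (ρ ++ s))) ?_ ?_
    · simpa [ap, pw, List.append_assoc] using h1
    · simpa [List.append_assoc] using h2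

theorem down_pump {p : M.Q} {t : List α} {ρ : List M.Γ} {b : Option α}
    (hdn : ∀ r : List α, r.head? = b → M.RR True (p, t ++ r, ρ) (p, r, []))
    (ht : ∀ r : List α, r.head? = b → (t ++ r).head? = b) :
    ∀ (k : ℕ) (r : List α) (s : List M.Γ), r.head? = b →
      M.RR False (p, pw t k ++ r, pw ρ k ++ s) (p, r, s) := by
  intro k
  induction k with
  | zero =>
    intro r s hr
    exact ReflTransGen.refl
  | succ k ih =>
    intro r s hr
    have h1 := RR.weaken (p := False)
      (RR.app (hdn (pw t k ++ r) (pw_head ht k r hr)) (pw ρ k ++ s))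
    have h2 := ih r s hr
    refine RR.trans (b := (p, pw t k ++ r, pw ρ k ++ s)) ?_ h2
    simpa [ap, pw, List.append_assoc] using h1

/-- surface of an outcome. -/
def osurf (o : Option (M.Q × List α)) : Option (M.Q × Option α) :=
  o.map (fun x => (x.1, x.2.head?))

theorem pump_concl {fin : M.Q → Prop} {w : List α} {F F' : M.Cfg}
    {o o' : Option (M.Q × List α)} {ρ : List M.Γ}
    (hbase : M.Base fin w F o) (hlink : M.Link fin F o F' o' ρ) (hρ : 1 ≤ ρ.length)
    (hout : M.Out fin F' o') (hq : F.1 = F'.1) (hl : F.2.2 = F'.2.2)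
    (ha : F.2.1.head? = F'.2.1.head?) (ho : osurf o = osurf o') :
    ∃ A B : ℕ, ∀ k, ∃ W : List α, W.length = A + k * B ∧
      (∃ e, M.RR False (M.init W) e ∧ fin e.1) ∧
      ∃ c, M.RR False (M.init W) c ∧ k ≤ c.2.2.length := by
  obtain ⟨q, u, l⟩ := F
  obtain ⟨q', u', l'⟩ := F'
  simp only at hq hl ha
  subst hq
  subst hl
  obtain ⟨s, hb1, hb2⟩ := hbase
  obtain ⟨x, hx, hx2⟩ := RR.rebase hb1
  obtain ⟨v, hv, hv2⟩ := RR.rebase hlink.1
  simp only [ap, init] at hx hx2 hv hv2
  have hhead : ∀ r : List α, r.head? = u'.head? → (v ++ r).head? = u'.head? := by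
    intro r hr
    rw [head_append_congr (v := v) hr, ← hv, ha]
  have hpk : ∀ k, k ≤ (pw ρ k).length := by
    intro k
    rw [pw_length]
    nlinarith
  cases o' with
  | none =>
    have ho' : o = none := hlink.2.1 rfl
    subst ho'
    obtain ⟨e, he1, he2⟩ := hout
    refine ⟨x.length + u'.length, v.length, fun k => ⟨x ++ (pw v k ++ u'), ?_, ?_, ?_⟩⟩
    · simp only [List.length_append, pw_length]; ring
    · have h1 := hx2 (pw v k ++ u') (by rw [pw_head hhead k u' rfl, ha])
      have h2 := up_pump hv2 hhead k u' s rfl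
      have h3 := RR.weaken (p := False) (RR.app he1 (pw ρ k ++ s))
      exact ⟨_, RR.trans h1 (RR.trans h2 h3), he2⟩
    · have h1 := hx2 (pw v k ++ u') (by rw [pw_head hhead k u' rfl, ha])
      have h2 := up_pump hv2 hhead k u' s rfl
      refine ⟨_, RR.trans h1 h2, ?_⟩
      have := hpk k
      simp only [List.length_append]
      omega
  | some z =>
    cases o with
    | none => simp [osurf] at ho
    | some y =>
      obtain ⟨p, yi⟩ := y
      obtain ⟨p', yj⟩ := z
      simp only [osurf, Option.map_some, Option.some.injEq, Prod.mk.injEq] at ho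
      obtain ⟨ho1, ho2⟩ := ho
      subst ho1
      have hd := hlink.2.2 _ rfl
      simp only [Out] at hd hout
      obtain ⟨z, hz, hz2⟩ := RR.rebase hout
      obtain ⟨t, ht, ht2⟩ := RR.rebase hd
      simp only at hz hz2 ht ht2
      obtain ⟨e, he1, he2⟩ := hb2 _ rfl
      simp only at he1
      have htt : ∀ r : List α, r.head? = yi.head? → (t ++ r).head? = yi.head? := by
        intro r hr
        rw [head_append_congr (v := t) hr, ← ht, ho2]
      have hzz : ∀ r : List α, r.head? = yi.head? → (z ++ r).head? = u'.head? := by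
        intro r hr
        rw [head_append_congr (v := z) (r' := yj) (by rw [hr, ho2]), ← hz]
      refine ⟨x.length + z.length + yi.length, v.length + t.length, fun k =>
        ⟨x ++ (pw v k ++ (z ++ (pw t k ++ yi))), ?_, ?_, ?_⟩⟩
      · simp only [List.length_append, pw_length]; ring
      · have h0 := pw_head htt k yi rfl
        have h1 := hx2 (pw v k ++ (z ++ (pw t k ++ yi)))
          (by rw [pw_head hhead k _ (hzz _ h0), ha])
        have h2 := up_pump hv2 hhead k (z ++ (pw t k ++ yi)) s (hzz _ h0)
        have h3 := RR.weaken (p := False)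
          (RR.app (hz2 (pw t k ++ yi) (by rw [h0, ho2])) (pw ρ k ++ s))
        have h4 := down_pump ht2 htt k yi s rfl
        exact ⟨e, RR.trans h1 (RR.trans h2 (RR.trans h3 (RR.trans h4 he1))), he2⟩
      · have h0 := pw_head htt k yi rfl
        have h1 := hx2 (pw v k ++ (z ++ (pw t k ++ yi)))
          (by rw [pw_head hhead k _ (hzz _ h0), ha])
        have h2 := up_pump hv2 hhead k (z ++ (pw t k ++ yi)) s (hzz _ h0)
        refine ⟨_, RR.trans h1 h2, ?_⟩
        have := hpk k
        simp only [List.length_append]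
        omega

theorem height_bound [Finite α] (M : APDA α) (fin : M.Q → Prop) (s : ℕ → ℕ)
    (hs : ∀ w, (∃ e, M.Reach (M.init w) e ∧ fin e.1) →
      ∀ c, M.Reach (M.init w) c → c.2.2.length ≤ s w.length)
    (hs2 : ∀ A B : ℕ, ∃ k, s (A + k * B) < k) :
    ∃ H : ℕ, ∀ w c e, M.Reach (M.init w) c → M.Reach c e → fin e.1 → c.2.2.length ≤ H := by
  classical
  have := M.finQ
  have := M.finΓ
  obtain ⟨D, hD⟩ := exists_pushBound M
  let sf : M.Cfg × Option (M.Q × List α) →
      M.Q × Option α × List M.Γ × Option (M.Q × Option α) :=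
    fun x => (x.1.1, x.1.2.1.head?, x.1.2.2, osurf x.2)
  have hfin : {y : M.Q × Option α × List M.Γ × Option (M.Q × Option α) |
      y.2.2.1.length ≤ D}.Finite := by
    have h1 : (Set.univ : Set M.Q).Finite := Set.finite_univ
    have h2 : (Set.univ : Set (Option α)).Finite := Set.finite_univ
    have h3 := List.finite_length_le M.Γ D
    have h4 : (Set.univ : Set (Option (M.Q × Option α))).Finite := Set.finite_univ
    refine (h1.prod (h2.prod (h3.prod h4))).subset ?_
    rintro ⟨a, b, c, d⟩ h
    exact ⟨trivial, trivial, h, trivial⟩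
  refine ⟨hfin.toFinset.card + 1, fun w c e h1 h2 h3 => ?_⟩
  by_contra hcon
  push Not at hcon
  rw [reach_iff] at h1 h2
  have hne : c.2.2 ≠ [] := by
    intro h0
    rw [h0] at hcon
    simp at hcon
  obtain ⟨F, f1, f2, f3⟩ := first_frame hD h1 rfl hne
  obtain ⟨q, u, τ⟩ := c
  -- outcome at the lowest level
  have hO : ∃ o, M.Out fin (q, u, τ) o ∧ M.Base fin w F o := by
    rcases RR.split h2 τ [] (by simp) with ⟨e', h4, h5⟩ | ⟨p, y, h4, h5⟩
    · refine ⟨none, ⟨e', h4, ?_⟩, [], by simpa [ap] using f2, fun x hx => by simp at hx⟩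
      rw [h5] at h3
      exact h3
    · refine ⟨some (p, y), h4, [], by simpa [ap] using f2, fun x hx => ?_⟩
      simp only [Option.some.injEq] at hx
      subst hx
      exact ⟨e, h5, h3⟩
  obtain ⟨o, ho1, ho2⟩ := hO
  set N := hfin.toFinset.card with hN
  obtain ⟨ch, c0, c1, c2⟩ := exists_chain hD N F o τ f1 f3 ho1 (by
    simp only at hcon
    omega)
  have hcoll := Finset.exists_ne_map_eq_of_card_lt_of_maps_to
    (s := Finset.range (N + 1)) (t := hfin.toFinset) (f := fun i => sf (ch i))
    (by rw [Finset.card_range]; omega)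
    (by
      intro i hi
      simp only [Finset.coe_range, Set.mem_Iio] at hi
      simp only [Set.Finite.coe_toFinset, Set.mem_ofPred_eq]
      exact (c2 i (by omega)).1)
  obtain ⟨i, hi, j, hj, hij, hsf⟩ := hcoll
  simp only [Finset.mem_range] at hi hj
  have key : ∀ i j, i < j → j < N + 1 → sf (ch i) = sf (ch j) → False := by
    intro i j hlt hj hsf
    obtain ⟨ρ, r1, r2⟩ := chain_link c1 i (j - i) (by omega) (by omega)
    have hb := chain_base (w := w) c1 (by rw [c0]; exact ho2) i (by omega)
    have hij' : i + (j - i) = j := by omega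
    rw [hij'] at r2
    have hsf' := hsf
    simp only [sf, Prod.mk.injEq] at hsf'
    obtain ⟨s1, s2, s3, s4⟩ := hsf'
    obtain ⟨A, B, hAB⟩ := pump_concl hb r2 (by omega) (c2 j (by omega)).2 s1 s3 s2 s4
    obtain ⟨k, hk⟩ := hs2 A B
    obtain ⟨W, w1, ⟨e', w2, w3⟩, c', w4, w5⟩ := hAB k
    have := hs W ⟨e', reach_iff.2 w2, w3⟩ c' (reach_iff.2 w4)
    rw [w1] at this
    omega
  rcases lt_or_gt_of_ne hij with h | h
  · exact key i j h hj hsf
  · exact key j i h hi hsf.symm

end pump2

end APDA

end part3

section part4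

theorem littleo_pump {s : ℕ → ℕ}
    (h : (fun n => (s n : ℝ)) =o[atTop] (fun n : ℕ => (n : ℝ))) :
    ∀ A B : ℕ, ∃ k, s (A + k * B) < k := by
  intro A B
  rcases Nat.eq_zero_or_pos B with hB | hB
  · subst hB
    exact ⟨s A + 1, by simp⟩
  · have hBr : (0 : ℝ) < B := by exact_mod_cast hB
    have hB1 : (1 : ℝ) ≤ B := by exact_mod_cast hB
    have h1 := h.def (c := 1 / (2 * (B : ℝ))) (by positivity)
    obtain ⟨n0, hn0⟩ := eventually_atTop.1 h1
    refine ⟨n0 + A + 1, ?_⟩
    have h2 := hn0 (A + (n0 + A + 1) * B) (by nlinarith)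
    rw [Real.norm_of_nonneg (by positivity), Real.norm_of_nonneg (by positivity)] at h2
    have h3 : 1 / (2 * (B : ℝ)) * ((A + (n0 + A + 1) * B : ℕ) : ℝ)
        < ((n0 + A + 1 : ℕ) : ℝ) := by
      push_cast
      rw [div_mul_eq_mul_div, div_lt_iff₀ (by positivity)]
      have hA : (0 : ℝ) ≤ A := by positivity
      have hn : (0 : ℝ) ≤ n0 := by positivity
      nlinarith [mul_nonneg hA hn]
    have h4 := lt_of_le_of_lt h2 h3
    exact_mod_cast h4

namespace APDA

section lower

variable {α : Type} {M : APDA α}

theorem strong_lower [Finite α] (M : APDA α) (s : ℕ → ℕ) (hs : M.StrongBound s)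
    (ho : (fun n => (s n : ℝ)) =o[atTop] (fun n : ℕ => (n : ℝ))) : M.lang.IsRegular := by
  obtain ⟨H, hH⟩ := height_bound M (fun _ => True) s (fun w _ c hc => hs w c hc)
    (littleo_pump ho)
  apply lang_regular_of_bound H
  intro w hw
  exact Acc.toAccH hw fun c hc => hH w c c hc ReflTransGen.refl trivial

theorem acc_path (hn : M.Nondet) {c : M.Cfg} (hc : M.Acc c) :
    ∃ e, M.Reach c e ∧ M.acc e.1 := by
  induction hc with
  | final c ha => exact ⟨c, ReflTransGen.refl, ha⟩
  | exist c c' _ hs _ ih =>
    obtain ⟨e, h1, h2⟩ := ih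
    exact ⟨e, ReflTransGen.head hs h1, h2⟩
  | all c hu _ _ _ => exact absurd hu (hn _)

theorem path_acc (hn : M.Nondet) {c e : M.Cfg} (h : M.Reach c e) (he : M.acc e.1) :
    M.Acc c := by
  induction h using ReflTransGen.head_induction_on with
  | refl => exact .final _ he
  | head h1 h2 ih => exact .exist _ _ (hn _) h1 ih

theorem path_accH (hn : M.Nondet) {H : ℕ} {c e : M.Cfg} (h : M.Reach c e)
    (he : M.acc e.1) : (∀ c', M.Reach c c' → M.Reach c' e → c'.2.2.length ≤ H) →
    M.AccH H c := by
  induction h using ReflTransGen.head_induction_on with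
  | refl => intro hb; exact .final _ (hb e ReflTransGen.refl ReflTransGen.refl) he
  | @head a b h1 h2 ih =>
    intro hb
    exact .exist _ _ (hb a ReflTransGen.refl (ReflTransGen.head h1 h2)) (hn _) h1
      (ih fun c' h3 h4 => hb c' (ReflTransGen.head h1 h3) h4)

theorem middle_nondet_lower [Finite α] (M : APDA α) (hn : M.Nondet) (s : ℕ → ℕ)
    (hs : M.MiddleBound s)
    (ho : (fun n => (s n : ℝ)) =o[atTop] (fun n : ℕ => (n : ℝ))) : M.lang.IsRegular := by
  obtain ⟨H, hH⟩ := height_bound M M.acc s
    (fun w hw c hc => by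
      obtain ⟨e, h1, h2⟩ := hw
      exact hs w (path_acc hn h1 h2) c hc)
    (littleo_pump ho)
  apply lang_regular_of_bound H
  intro w hw
  obtain ⟨e, h1, h2⟩ := acc_path hn hw
  exact path_accH hn h1 h2 fun c' h3 h4 => hH w c' e h3 h4 h2

theorem middle_mem_LH {s : ℕ → ℕ} (hs : M.MiddleBound s) {w : List α} (hw : w ∈ M.lang) :
    w ∈ M.LH (s w.length) :=
  Acc.toAccH hw (hs w hw)

theorem exists_gap {s : ℕ → ℕ} (hs : M.MiddleBound s) (hnr : ¬ M.lang.IsRegular) (h : ℕ) :
    ∃ g, h ≤ g ∧ ∃ w, w ∈ M.LH (g + 1) ∧ w ∉ M.LH g := by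
  by_contra hcon
  push Not at hcon
  apply hnr
  apply lang_regular_of_bound h
  intro w hw
  have h1 : ∀ d, w ∈ M.LH (h + d) → w ∈ M.LH h := by
    intro d
    induction d with
    | zero => exact fun h => h
    | succ d ih => exact fun hd => ih (hcon (h + d) (by omega) w hd)
  exact h1 (s w.length) (LH_mono (by omega) (middle_mem_LH hs hw))

theorem short_witness (M : APDA α) (g : ℕ) (hne : ∃ w, w ∈ M.LH (g + 1) ∧ w ∉ M.LH g) :
    ∃ w, w ∈ M.LH (g + 1) ∧ w ∉ M.LH g ∧
      w.length < 2 ^ (Nat.card M.Q * (Nat.card M.Γ + 1) ^ (g + 1)) *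
        2 ^ (Nat.card M.Q * (Nat.card M.Γ + 1) ^ g) := by
  classical
  have := M.finQ
  have := M.finΓ
  have e1 := Fintype.ofFinite M.Q
  have e2 := Fintype.ofFinite M.Γ
  have hP : ∃ n, ∃ w : List α, w.length = n ∧ w ∈ M.LH (g + 1) ∧ w ∉ M.LH g := by
    obtain ⟨w, h1, h2⟩ := hne
    exact ⟨_, w, rfl, h1, h2⟩
  obtain ⟨w, hw0, hw1, hw2⟩ := Nat.find_spec hP
  refine ⟨w, hw1, hw2, ?_⟩
  by_contra hcon
  push Not at hcon
  have hcard : Fintype.card (Set (M.Q × (Fin (g + 1) → Option M.Γ)) ×
      Set (M.Q × (Fin g → Option M.Γ))) =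
      2 ^ (Nat.card M.Q * (Nat.card M.Γ + 1) ^ (g + 1)) *
        2 ^ (Nat.card M.Q * (Nat.card M.Γ + 1) ^ g) := by
    simp [Fintype.card_prod, Fintype.card_set, Nat.card_eq_fintype_card]
  have hcoll := Finset.exists_ne_map_eq_of_card_lt_of_maps_to
    (s := Finset.range (w.length + 1))
    (t := (Finset.univ : Finset (Set (M.Q × (Fin (g + 1) → Option M.Γ)) ×
      Set (M.Q × (Fin g → Option M.Γ)))))
    (f := fun i => (M.profile (g + 1) (w.drop i), M.profile g (w.drop i)))
    (by rw [Finset.card_range, Finset.card_univ, hcard]; omega)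
    (by intro i hi; simp)
  obtain ⟨i, hi, j, hj, hij, he⟩ := hcoll
  simp only [Finset.mem_range] at hi hj
  have key : ∀ i j, i < j → j < w.length + 1 →
      M.profile (g + 1) (w.drop i) = M.profile (g + 1) (w.drop j) →
      M.profile g (w.drop i) = M.profile g (w.drop j) → False := by
    intro i j hlt hj e3 e4
    have e5 := profile_append e3 (w.take i)
    have e6 := profile_append e4 (w.take i)
    rw [List.take_append_drop] at e5 e6
    have h3 : w.take i ++ w.drop j ∈ M.LH (g + 1) := (mem_LH_of_profile e5).1 hw1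
    have h4 : w.take i ++ w.drop j ∉ M.LH g := fun h => hw2 ((mem_LH_of_profile e6).2 h)
    have h5 := Nat.find_min' hP ⟨_, rfl, h3, h4⟩
    rw [← hw0] at h5
    simp only [List.length_append, List.length_take, List.length_drop] at h5
    omega
  simp only [Prod.mk.injEq] at he
  rcases lt_or_gt_of_ne hij with h | h
  · exact key i j h hj he.1 he.2
  · exact key j i h hi he.1.symm he.2.symm

theorem middle_alt_lower (M : APDA α) (s : ℕ → ℕ) (hs : M.MiddleBound s)
    (ho : (fun n => (s n : ℝ)) =o[atTop] (fun n : ℕ => Real.log (Real.log n))) :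
    M.lang.IsRegular := by
  by_contra hnr
  have := M.finQ
  have := M.finΓ
  set a : ℕ := Nat.card M.Q with ha
  set b : ℕ := Nat.card M.Γ + 1 with hb
  have ha1 : 1 ≤ a := by
    have : Nonempty M.Q := ⟨M.start⟩
    exact Nat.card_pos
  have hb1 : 1 ≤ b := by omega
  have hab : (2 : ℝ) ≤ 2 * a * b := by
    have : 1 ≤ a * b := Nat.mul_pos ha1 hb1
    have h2 : (1 : ℝ) ≤ a * b := by exact_mod_cast this
    nlinarith
  set C : ℝ := Real.log (2 * a * b) with hC
  have hCpos : 0 < C := Real.log_pos (by linarith)
  have h1 := ho.def (c := 1 / (2 * C)) (by positivity)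
  obtain ⟨n0, hn0⟩ := eventually_atTop.1 h1
  set N0 := max n0 16 with hN0
  obtain ⟨g, hg, hgw⟩ := exists_gap hs hnr ((Finset.range N0).sup s)
  obtain ⟨w, hw1, hw2, hw3⟩ := short_witness M g hgw
  rw [← ha, ← hb] at hw3
  have hsg : g + 1 ≤ s w.length := by
    by_contra hc
    exact hw2 (LH_mono (by omega) (middle_mem_LH hs (LH_subset _ hw1)))
  have hlen : N0 ≤ w.length := by
    by_contra hc
    have := Finset.le_sup (f := s) (Finset.mem_range.2 (by omega : w.length < N0))
    omega
  have hn := hn0 w.length (le_trans (le_max_left _ _) hlen)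
  have h16 : (16 : ℝ) ≤ w.length := by
    exact_mod_cast le_trans (le_max_right _ _) hlen
  have hlog1 : 1 < Real.log w.length := by
    rw [Real.lt_log_iff_exp_lt (by linarith)]
    have := Real.exp_one_lt_d9
    linarith
  have hloglog : 0 < Real.log (Real.log w.length) := Real.log_pos hlog1
  -- upper bound of loglog
  have hwle : (w.length : ℝ) ≤ 2 ^ (2 * a * b ^ (g + 1)) := by
    have h2 : w.length ≤ 2 ^ (2 * a * b ^ (g + 1)) := by
      refine le_trans hw3.le ?_
      rw [← pow_add]
      apply Nat.pow_le_pow_right (by norm_num)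
      have : b ^ g ≤ b ^ (g + 1) := Nat.pow_le_pow_right hb1 (by omega)
      nlinarith
    exact_mod_cast h2
  have hlogle : Real.log w.length ≤ (2 * a * b : ℝ) ^ (g + 1) := by
    have h2 : Real.log w.length ≤ Real.log (2 ^ (2 * a * b ^ (g + 1))) :=
      Real.log_le_log (by linarith) hwle
    rw [Real.log_pow] at h2
    have h3 : Real.log 2 ≤ 1 := by
      have := Real.log_two_lt_d9
      linarith
    have h4 : ((2 * a * b ^ (g + 1) : ℕ) : ℝ) * Real.log 2 ≤ (2 * a * b ^ (g + 1) : ℕ) := by
      have : (0 : ℝ) ≤ ((2 * a * b ^ (g + 1) : ℕ) : ℝ) := by positivity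
      nlinarith
    have h5 : ((2 * a * b ^ (g + 1) : ℕ) : ℝ) ≤ (2 * a * b : ℝ) ^ (g + 1) := by
      have : 2 * a * b ^ (g + 1) ≤ (2 * a * b) ^ (g + 1) := by
        rw [mul_pow]
        apply Nat.mul_le_mul_right
        exact Nat.le_self_pow (by omega) _
      exact_mod_cast this
    linarith
  have hLL : Real.log (Real.log w.length) ≤ (g + 1 : ℕ) * C := by
    have h2 := Real.log_le_log (by linarith) hlogle
    rwa [Real.log_pow] at h2
  rw [Real.norm_of_nonneg (by positivity), Real.norm_of_nonneg hloglog.le] at hn
  have hsr : ((g + 1 : ℕ) : ℝ) ≤ s w.length := by exact_mod_cast hsg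
  have hfin : (s w.length : ℝ) ≤ (s w.length : ℝ) / 2 := by
    calc (s w.length : ℝ) ≤ 1 / (2 * C) * Real.log (Real.log w.length) := hn
      _ ≤ 1 / (2 * C) * (s w.length * C) := by
          apply mul_le_mul_of_nonneg_left _ (by positivity)
          nlinarith
      _ = (s w.length : ℝ) / 2 := by field_simp
  have hpos : (1 : ℝ) ≤ s w.length := by
    have : 1 ≤ s w.length := by omega
    exact_mod_cast this
  linarith

end lower

end APDA

end part4

section part5

theorem not_regular_of_sep {α : Type} {L : Language α} (x y : ℕ → List α)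
    (h : ∀ i j, x i ++ y j ∈ L ↔ i = j) : ¬ L.IsRegular := by
  intro hr
  have hf := hr.finite_range_leftQuotient
  have hinj : Function.Injective (fun i => L.leftQuotient (x i)) := by
    intro i j hij
    simp only at hij
    have h1 : y i ∈ L.leftQuotient (x i) := (h i i).2 rfl
    rw [hij] at h1
    exact ((h j i).1 h1).symm
  exact Set.infinite_range_of_injective hinj
    (hf.subset (by rintro _ ⟨i, rfl⟩; exact ⟨x i, rfl⟩))

namespace APDA

theorem acc_iff_ex {α : Type} {M : APDA α} {c : M.Cfg} (h1 : ¬ M.acc c.1)
    (h2 : ¬ M.univ c.1) : M.Acc c ↔ ∃ c', M.Step c c' ∧ M.Acc c' := by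
  constructor
  · intro h
    cases h with
    | final _ h => exact absurd h h1
    | exist _ c' _ hs hA => exact ⟨c', hs, hA⟩
    | all _ h _ _ => exact absurd h h2
  · rintro ⟨c', hs, hA⟩
    exact .exist _ _ h2 hs hA

theorem acc_iff_all {α : Type} {M : APDA α} {c : M.Cfg} (h1 : ¬ M.acc c.1)
    (h2 : M.univ c.1) : M.Acc c ↔ (∃ c', M.Step c c') ∧ ∀ c', M.Step c c' → M.Acc c' := by
  constructor
  · intro h
    cases h with
    | final _ h => exact absurd h h1
    | exist _ c' h _ _ => exact absurd h2 h
    | all _ _ h3 h4 => exact ⟨h3, h4⟩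
  · rintro ⟨h3, h4⟩
    exact .all _ h2 h3 h4

end APDA

namespace APDA

section table

variable {α : Type} {M : APDA α}
  (nx : M.Q → Option α → Option M.Γ → List (M.Q × List M.Γ × Bool))
  (hnx : ∀ q a X x, x ∈ M.δ q a X ↔ x ∈ nx q a X)

include hnx

theorem step_tab (q : M.Q) (u : List α) (s : List M.Γ) (c' : M.Cfg) :
    M.Step (q, u, s) c' ↔ ¬ M.acc q ∧ ∃ x ∈ nx q u.head? s.head?,
      ((x.2.2 = false ∧ c' = (x.1, u, x.2.1 ++ s.tail)) ∨
        (x.2.2 = true ∧ u ≠ [] ∧ c' = (x.1, u.tail, x.2.1 ++ s.tail))) := by
  obtain ⟨q', u', s'⟩ := c'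
  constructor
  · rintro ⟨h0, l, b, hm, hs, hb⟩
    refine ⟨h0, (q', l, b), (hnx _ _ _ _).1 hm, ?_⟩
    rcases hb with ⟨h1, h2⟩ | ⟨h1, h2, h3⟩
    · left
      refine ⟨h1, ?_⟩
      simp only at h2 hs ⊢
      rw [h2, hs]
    · right
      refine ⟨h1, h2, ?_⟩
      simp only at h3 hs ⊢
      rw [h3, hs]
  · rintro ⟨h0, ⟨q2, l, b⟩, hm, hb⟩
    rcases hb with ⟨h1, h2⟩ | ⟨h1, h2, h3⟩
    · simp only [Prod.mk.injEq] at h2
      obtain ⟨e1, e2, e3⟩ := h2
      subst e1 e2 e3
      exact ⟨h0, l, b, (hnx _ _ _ _).2 hm, rfl, Or.inl ⟨h1, rfl⟩⟩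
    · simp only [Prod.mk.injEq] at h3
      obtain ⟨e1, e2, e3⟩ := h3
      subst e1 e2 e3
      exact ⟨h0, l, b, (hnx _ _ _ _).2 hm, rfl, Or.inr ⟨h1, h2, rfl⟩⟩

theorem acc_tab_ex (q : M.Q) (u : List α) (s : List M.Γ) (h1 : ¬ M.acc q)
    (h2 : ¬ M.univ q) : M.Acc (q, u, s) ↔ ∃ x ∈ nx q u.head? s.head?,
      ((x.2.2 = false ∧ M.Acc (x.1, u, x.2.1 ++ s.tail)) ∨
        (x.2.2 = true ∧ u ≠ [] ∧ M.Acc (x.1, u.tail, x.2.1 ++ s.tail))) := by
  rw [acc_iff_ex (c := (q, u, s)) h1 h2]
  constructor
  · rintro ⟨c', h3, h4⟩
    rw [step_tab nx hnx] at h3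
    obtain ⟨_, x, hx, h5⟩ := h3
    refine ⟨x, hx, ?_⟩
    rcases h5 with ⟨h6, h7⟩ | ⟨h6, h7, h8⟩
    · subst h7; exact Or.inl ⟨h6, h4⟩
    · subst h8; exact Or.inr ⟨h6, h7, h4⟩
  · rintro ⟨x, hx, h5⟩
    rcases h5 with ⟨h6, h7⟩ | ⟨h6, h7, h8⟩
    · exact ⟨_, (step_tab nx hnx _ _ _ _).2 ⟨h1, x, hx, Or.inl ⟨h6, rfl⟩⟩, h7⟩
    · exact ⟨_, (step_tab nx hnx _ _ _ _).2 ⟨h1, x, hx, Or.inr ⟨h6, h7, rfl⟩⟩, h8⟩

theorem acc_tab_all (q : M.Q) (u : List α) (s : List M.Γ) (h1 : ¬ M.acc q)
    (h2 : M.univ q) : M.Acc (q, u, s) ↔
      (∃ x ∈ nx q u.head? s.head?, x.2.2 = false ∨ u ≠ []) ∧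
      ∀ x ∈ nx q u.head? s.head?,
      ((x.2.2 = false → M.Acc (x.1, u, x.2.1 ++ s.tail)) ∧
        (x.2.2 = true → u ≠ [] → M.Acc (x.1, u.tail, x.2.1 ++ s.tail))) := by
  rw [acc_iff_all (c := (q, u, s)) h1 h2]
  constructor
  · rintro ⟨⟨c', h3⟩, h4⟩
    rw [step_tab nx hnx] at h3
    obtain ⟨_, x, hx, h5⟩ := h3
    refine ⟨⟨x, hx, ?_⟩, ?_⟩
    · rcases h5 with ⟨h6, h7⟩ | ⟨h6, h7, h8⟩
      · exact Or.inl h6
      · exact Or.inr h7
    · intro x hx
      exact ⟨fun h6 => h4 _ ((step_tab nx hnx _ _ _ _).2 ⟨h1, x, hx, Or.inl ⟨h6, rfl⟩⟩),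
        fun h6 h7 => h4 _ ((step_tab nx hnx _ _ _ _).2 ⟨h1, x, hx, Or.inr ⟨h6, h7, rfl⟩⟩)⟩
  · rintro ⟨⟨x, hx, h3⟩, h4⟩
    constructor
    · by_cases hb : x.2.2 = false
      · exact ⟨_, (step_tab nx hnx _ _ _ _).2 ⟨h1, x, hx, Or.inl ⟨hb, rfl⟩⟩⟩
      · rcases h3 with h3 | h3
        · exact absurd h3 hb
        · exact ⟨_, (step_tab nx hnx _ _ _ _).2 ⟨h1, x, hx, Or.inr ⟨by simpa using hb, h3, rfl⟩⟩⟩
    · intro c' h5
      rw [step_tab nx hnx] at h5
      obtain ⟨_, x, hx, h5⟩ := h5
      rcases h5 with ⟨h6, h7⟩ | ⟨h6, h7, h8⟩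
      · subst h7; exact (h4 x hx).1 h6
      · subst h8; exact (h4 x hx).2 h6 h7

end table

theorem reach_inv {α : Type} {M : APDA α} (P : M.Cfg → Prop)
    (hP : ∀ c c', M.Step c c' → P c → P c') {c c' : M.Cfg} (h : M.Reach c c') (h0 : P c) :
    P c' := by
  induction h with
  | refl => exact h0
  | tail _ h2 ih => exact hP _ _ h2 ih

/-- a rank function decreasing along steps that leave the head in place gives realtime. -/
theorem realtime_of_rank {α : Type} {M : APDA α} (rk : M.Q → ℕ) (K : ℕ)
    (hK : ∀ q, rk q ≤ K)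
    (h : ∀ c c' : M.Cfg, M.Step c c' → c'.2.1 = c.2.1 → rk c'.1 < rk c.1) : M.Realtime := by
  refine ⟨K, fun w f m h0 hf => ?_⟩
  have key : ∀ i ≤ m, rk (f i).1 + i ≤ rk (f 0).1 := by
    intro i
    induction i with
    | zero => intro _; simp
    | succ i ih =>
      intro hi
      have h1 := ih (by omega)
      have h2 := hf i (by omega)
      have h3 := h _ _ h2.1 h2.2
      omega
  have := key m le_rfl
  have := hK (f 0).1
  omega

end APDA

/-- the transition table of the counter machine. -/
def nxE : Bool → Option Bool → Option Unit → List (Bool × List Unit × Bool)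
  | false, some true, X => [(false, () :: X.toList, true)]
  | false, some false, some _ => [(false, [], true)]
  | false, none, none => [(true, [], false)]
  | _, _, _ => []

/-- the one-counter machine for balanced words. -/
def ME : APDA Bool where
  Q := Bool
  Γ := Unit
  finQ := inferInstance
  finΓ := inferInstance
  start := false
  acc := fun q => q = true
  univ := fun _ => False
  δ := fun q a X => {x | x ∈ nxE q a X}
  finδ := fun q a X => List.finite_toSet _

/-- steps of `ME`. -/
def stepE (c c' : Bool × List Bool × List Unit) : Prop := ME.Step c c'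

/-- acceptance of `ME`. -/
def accE (c : Bool × List Bool × List Unit) : Prop := ME.Acc c

theorem stepE_iff (q : Bool) (u : List Bool) (s : List Unit)
    (c' : Bool × List Bool × List Unit) :
    stepE (q, u, s) c' ↔ ¬ (q = true) ∧ ∃ x ∈ nxE q u.head? s.head?,
      ((x.2.2 = false ∧ c' = (x.1, u, x.2.1 ++ s.tail)) ∨
        (x.2.2 = true ∧ u ≠ [] ∧ c' = (x.1, u.tail, x.2.1 ++ s.tail))) :=
  APDA.step_tab (M := ME) nxE (fun _ _ _ _ => Iff.rfl) q u s c'

theorem accE_iff (u : List Bool) (s : List Unit) :
    accE (false, u, s) ↔ ∃ x ∈ nxE false u.head? s.head?,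
      ((x.2.2 = false ∧ accE (x.1, u, x.2.1 ++ s.tail)) ∨
        (x.2.2 = true ∧ u ≠ [] ∧ accE (x.1, u.tail, x.2.1 ++ s.tail))) :=
  APDA.acc_tab_ex (M := ME) nxE (fun _ _ _ _ => Iff.rfl) false u s
    (fun h => Bool.noConfusion h) (fun h => h)

theorem accE_fin (u : List Bool) (s : List Unit) : accE (true, u, s) :=
  APDA.Acc.final (M := ME) _ rfl

theorem keepE (s : List Unit) : s.head?.toList ++ s.tail = s := by
  cases s <;> rfl

theorem aE_push (u : List Bool) (s : List Unit) :
    accE (false, true :: u, s) ↔ accE (false, u, () :: s) := by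
  rw [accE_iff]
  simp [nxE, keepE]

theorem aE_pop (u : List Bool) (x : Unit) (s : List Unit) :
    accE (false, false :: u, x :: s) ↔ accE (false, u, s) := by
  rw [accE_iff]
  simp [nxE, keepE]

theorem aE_pop_nil (u : List Bool) : ¬ accE (false, false :: u, []) := by
  rw [accE_iff]
  simp [nxE]

theorem aE_end : accE (false, [], []) := by
  rw [accE_iff]
  simp [nxE, accE_fin]

theorem aE_end_cons (x : Unit) (s : List Unit) : ¬ accE (false, [], x :: s) := by
  rw [accE_iff]
  simp [nxE]

theorem accE_push (i : ℕ) (u : List Bool) : ∀ s : List Unit,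
    accE (false, List.replicate i true ++ u, s) ↔
      accE (false, u, List.replicate i () ++ s) := by
  induction i with
  | zero => intro s; exact Iff.rfl
  | succ i ih =>
    intro s
    rw [List.replicate_succ, List.cons_append, aE_push, ih, List.replicate_succ',
      List.append_assoc]
    rfl

theorem accE_pop (j : ℕ) : ∀ s : List Unit,
    accE (false, List.replicate j false, s) ↔ s.length = j := by
  induction j with
  | zero =>
    intro s
    cases s with
    | nil => simp [aE_end]
    | cons x s => simp [aE_end_cons]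
  | succ j ih =>
    intro s
    rw [List.replicate_succ]
    cases s with
    | nil => simp [aE_pop_nil]
    | cons x s =>
      rw [aE_pop, ih]
      simp

theorem ME_nonregular : ¬ ME.lang.IsRegular := by
  apply not_regular_of_sep (fun i => List.replicate i true) (fun j => List.replicate j false)
  intro i j
  have h1 : (List.replicate i true ++ List.replicate j false ∈ ME.lang) ↔
      accE (false, List.replicate i true ++ List.replicate j false, []) := Iff.rfl
  rw [h1, accE_push, accE_pop]
  simp

theorem ME_decr (c c' : Bool × List Bool × List Unit) (h : stepE c c') :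
    c'.2.2.length + c'.2.1.length ≤ c.2.2.length + c.2.1.length := by
  obtain ⟨q, u, s⟩ := c
  rw [stepE_iff] at h
  obtain ⟨h0, x, hx, h⟩ := h
  have hq : q = false := by simpa using h0
  subst hq
  rcases u with _ | ⟨a, u⟩
  · rcases s with _ | ⟨y, s⟩
    · simp [nxE] at hx
      subst hx
      simp at h
      subst h
      simp
    · simp [nxE] at hx
  · rcases a with _ | _
    · rcases s with _ | ⟨y, s⟩
      · simp [nxE] at hx
      · simp [nxE] at hx
        subst hx
        simp at h
        subst h
        simp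
        omega
    · rcases s with _ | ⟨y, s⟩
      · simp [nxE] at hx
        subst hx
        simp at h
        subst h
        simp
        omega
      · simp [nxE] at hx
        subst hx
        simp at h
        subst h
        simp
        omega

theorem ME_strong : ME.StrongBound (fun n => n) := by
  intro w c hc
  have := APDA.reach_inv (M := ME)
    (fun c : Bool × List Bool × List Unit => c.2.2.length + c.2.1.length ≤ w.length)
    (fun c c' h hp => le_trans (ME_decr c c' h) hp) hc
    (by show ([] : List Unit).length + w.length ≤ w.length; simp)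
  exact le_trans (Nat.le_add_right _ _) this

/-- rank. -/
def rkE : Bool → ℕ
  | true => 0
  | false => 1

theorem rkE_le (q : Bool) : rkE q ≤ 1 := by
  cases q <;> simp [rkE]

theorem ME_realtime : ME.Realtime := by
  refine APDA.realtime_of_rank (M := ME) rkE 1 rkE_le ?_
  · have key : ∀ c c' : Bool × List Bool × List Unit, stepE c c' → c'.2.1 = c.2.1 →
        rkE c'.1 < rkE c.1 := by
      rintro ⟨q, u, s⟩ c' h hu
      rw [stepE_iff] at h
      obtain ⟨h0, x, hx, h⟩ := h
      have hq : q = false := by simpa using h0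
      subst hq
      rcases u with _ | ⟨a, u⟩
      · rcases s with _ | ⟨y, s⟩
        · simp [nxE] at hx
          subst hx
          simp at h
          subst h
          simp [rkE]
        · simp [nxE] at hx
      · exfalso
        rcases a with _ | _
        · rcases s with _ | ⟨y, s⟩
          · simp [nxE] at hx
          · simp [nxE] at hx
            subst hx
            simp at h
            subst h
            simp at hu
        · simp [nxE] at hx
          subst hx
          simp at h
          subst h
          simp at hu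
    exact key

theorem ME_nondet : ME.Nondet := fun q h => h

end part5

section part6

/-- result of a comparison. -/
inductive Cm | lt | eq | gt
  deriving DecidableEq

instance : Fintype Cm := ⟨{.lt, .eq, .gt}, by intro x; cases x <;> simp⟩

/-- goal of a comparison. -/
inductive Gl | len | le | eq | lt
  deriving DecidableEq

instance : Fintype Gl := ⟨{.len, .le, .eq, .lt}, by intro x; cases x <;> simp⟩

/-- states of the ruler machine. -/
inductive St
  | t0 | t | p0 | p | s | v | k | h | c (g : Gl) (r : Cm) | fin
  deriving DecidableEq, Fintype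

/-- is the goal met. -/
def sat : Gl → Cm → Bool
  | .len, _ => true
  | .le, .gt => false
  | .le, _ => true
  | .eq, .eq => true
  | .eq, _ => false
  | .lt, .lt => true
  | .lt, _ => false

/-- update with a more significant bit. -/
def upd (r : Cm) : Bool → Bool → Cm
  | false, true => .lt
  | true, false => .gt
  | _, _ => r

/-- the transition table of the ruler machine. -/
def nxF : St → Option (Option Bool) → Option Bool → List (St × List Bool × Bool)
  | .t0, some none, X => [(.t, X.toList, true), (.p, X.toList, true), (.p0, X.toList, true)]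
  | .t, some none, X => [(.t, X.toList, true), (.p, X.toList, true)]
  | .t, some (some _), X => [(.t, X.toList, true)]
  | .t, none, X => [(.fin, X.toList, false)]
  | .p, some (some _), X => [(.p, true :: X.toList, true), (.p, false :: X.toList, true)]
  | .p, some none, X => [(.c .len .eq, X.toList, true), (.h, X.toList, false)]
  | .p, none, X => [(.fin, X.toList, false)]
  | .p0, some (some _), X => [(.p0, true :: X.toList, true), (.p0, false :: X.toList, true)]
  | .p0, some none, X => [(.s, X.toList, false)]
  | .s, some none, X => [(.c .eq .eq, X.toList, true), (.v, X.toList, false)]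
  | .v, some none, X => [(.c .lt .eq, X.toList, true), (.k, X.toList, true)]
  | .k, some (some _), X => [(.k, X.toList, true)]
  | .k, some none, X => [(.s, X.toList, false)]
  | .h, some none, X => [(.c .le .eq, X.toList, true), (.k, X.toList, true)]
  | .c g r, some (some x), some y => [(.c g (upd r x y), [], true)]
  | .c g r, some none, none => if sat g r then [(.fin, [], false)] else []
  | .c g r, none, none => if sat g r then [(.fin, [], false)] else []
  | _, _, _ => []

/-- universal states. -/
def unF : St → Prop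
  | .t0 => True
  | .t => True
  | .p0 => True
  | .p => True
  | .v => True
  | _ => False

/-- the ruler machine, over the input alphabet of bits and the separator `none`. -/
def MF : APDA (Option Bool) where
  Q := St
  Γ := Bool
  finQ := inferInstance
  finΓ := inferInstance
  start := .t0
  acc := fun q => q = .fin
  univ := unF
  δ := fun q a X => {x | x ∈ nxF q a X}
  finδ := fun q a X => List.finite_toSet _

theorem keep_tail (s : List Bool) : s.head?.toList ++ s.tail = s := by
  cases s <;> rfl

/-- steps of `MF`. -/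
def stepF (c c' : St × List (Option Bool) × List Bool) : Prop := MF.Step c c'

/-- acceptance of `MF`. -/
def accF (c : St × List (Option Bool) × List Bool) : Prop := MF.Acc c

theorem stepF_iff (q : St) (u : List (Option Bool)) (s : List Bool)
    (c' : St × List (Option Bool) × List Bool) :
    stepF (q, u, s) c' ↔ ¬ (q = .fin) ∧ ∃ x ∈ nxF q u.head? s.head?,
      ((x.2.2 = false ∧ c' = (x.1, u, x.2.1 ++ s.tail)) ∨
        (x.2.2 = true ∧ u ≠ [] ∧ c' = (x.1, u.tail, x.2.1 ++ s.tail))) :=
  APDA.step_tab (M := MF) nxF (fun _ _ _ _ => Iff.rfl) q u s c'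

theorem accF_fin (u : List (Option Bool)) (s : List Bool) : accF (.fin, u, s) :=
  APDA.Acc.final (M := MF) _ rfl

/-- existential configurations, by the table. -/
theorem accF_ex' (q : St) (u : List (Option Bool)) (s : List Bool) (h1 : ¬ q = .fin)
    (h2 : ¬ unF q) : accF (q, u, s) ↔ ∃ x ∈ nxF q u.head? s.head?,
      ((x.2.2 = false ∧ accF (x.1, u, x.2.1 ++ s.tail)) ∨
        (x.2.2 = true ∧ u ≠ [] ∧ accF (x.1, u.tail, x.2.1 ++ s.tail))) :=
  APDA.acc_tab_ex (M := MF) nxF (fun _ _ _ _ => Iff.rfl) q u s h1 h2

/-- universal configurations, by the table. -/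
theorem accF_all' (q : St) (u : List (Option Bool)) (s : List Bool) (h1 : ¬ q = .fin)
    (h2 : unF q) : accF (q, u, s) ↔
      (∃ x ∈ nxF q u.head? s.head?, x.2.2 = false ∨ u ≠ []) ∧
      ∀ x ∈ nxF q u.head? s.head?,
      ((x.2.2 = false → accF (x.1, u, x.2.1 ++ s.tail)) ∧
        (x.2.2 = true → u ≠ [] → accF (x.1, u.tail, x.2.1 ++ s.tail))) :=
  APDA.acc_tab_all (M := MF) nxF (fun _ _ _ _ => Iff.rfl) q u s h1 h2

/-! ### letter by letter -/

theorem a_k_bit (b : Bool) (u : List (Option Bool)) (s : List Bool) :
    accF (.k, some b :: u, s) ↔ accF (.k, u, s) := by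
  rw [accF_ex' .k (some b :: u) s (by simp) (by simp [unF])]
  simp [nxF, keep_tail]

theorem a_k_sep (u : List (Option Bool)) (s : List Bool) :
    accF (.k, none :: u, s) ↔ accF (.s, none :: u, s) := by
  rw [accF_ex' .k (none :: u) s (by simp) (by simp [unF])]
  simp [nxF, keep_tail]

theorem a_k_nil (s : List Bool) : ¬ accF (.k, [], s) := by
  rw [accF_ex' .k [] s (by simp) (by simp [unF])]
  simp [nxF]

theorem a_s_sep (u : List (Option Bool)) (s : List Bool) :
    accF (.s, none :: u, s) ↔ accF (.c .eq .eq, u, s) ∨ accF (.v, none :: u, s) := by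
  rw [accF_ex' .s (none :: u) s (by simp) (by simp [unF])]
  simp [nxF, keep_tail]

theorem a_s_nil (s : List Bool) : ¬ accF (.s, [], s) := by
  rw [accF_ex' .s [] s (by simp) (by simp [unF])]
  simp [nxF]

theorem a_v_sep (u : List (Option Bool)) (s : List Bool) :
    accF (.v, none :: u, s) ↔ accF (.c .lt .eq, u, s) ∧ accF (.k, u, s) := by
  rw [accF_all' .v (none :: u) s (by simp) (by simp [unF])]
  simp [nxF, keep_tail]

theorem a_h_sep (u : List (Option Bool)) (s : List Bool) :
    accF (.h, none :: u, s) ↔ accF (.c .le .eq, u, s) ∨ accF (.k, u, s) := by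
  rw [accF_ex' .h (none :: u) s (by simp) (by simp [unF])]
  simp [nxF, keep_tail]

theorem a_p_bit (b : Bool) (u : List (Option Bool)) (s : List Bool) :
    accF (.p, some b :: u, s) ↔ accF (.p, u, true :: s) ∧ accF (.p, u, false :: s) := by
  rw [accF_all' .p (some b :: u) s (by simp) (by simp [unF])]
  simp [nxF, keep_tail]

theorem a_p_sep (u : List (Option Bool)) (s : List Bool) :
    accF (.p, none :: u, s) ↔ accF (.c .len .eq, u, s) ∧ accF (.h, none :: u, s) := by
  rw [accF_all' .p (none :: u) s (by simp) (by simp [unF])]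
  simp [nxF, keep_tail]

theorem a_p_nil (s : List Bool) : accF (.p, [], s) := by
  rw [accF_all' .p [] s (by simp) (by simp [unF])]
  simp [nxF, accF_fin]

theorem a_p0_bit (b : Bool) (u : List (Option Bool)) (s : List Bool) :
    accF (.p0, some b :: u, s) ↔
      accF (.p0, u, true :: s) ∧ accF (.p0, u, false :: s) := by
  rw [accF_all' .p0 (some b :: u) s (by simp) (by simp [unF])]
  simp [nxF, keep_tail]

theorem a_p0_sep (u : List (Option Bool)) (s : List Bool) :
    accF (.p0, none :: u, s) ↔ accF (.s, none :: u, s) := by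
  rw [accF_all' .p0 (none :: u) s (by simp) (by simp [unF])]
  simp [nxF, keep_tail]

theorem a_p0_nil (s : List Bool) : ¬ accF (.p0, [], s) := by
  rw [accF_all' .p0 [] s (by simp) (by simp [unF])]
  simp [nxF]

theorem a_t_bit (b : Bool) (u : List (Option Bool)) (s : List Bool) :
    accF (.t, some b :: u, s) ↔ accF (.t, u, s) := by
  rw [accF_all' .t (some b :: u) s (by simp) (by simp [unF])]
  simp [nxF, keep_tail]

theorem a_t_sep (u : List (Option Bool)) (s : List Bool) :
    accF (.t, none :: u, s) ↔ accF (.t, u, s) ∧ accF (.p, u, s) := by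
  rw [accF_all' .t (none :: u) s (by simp) (by simp [unF])]
  simp [nxF, keep_tail]

theorem a_t_nil (s : List Bool) : accF (.t, [], s) := by
  rw [accF_all' .t [] s (by simp) (by simp [unF])]
  simp [nxF, accF_fin]

theorem a_t0_sep (u : List (Option Bool)) (s : List Bool) :
    accF (.t0, none :: u, s) ↔
      accF (.t, u, s) ∧ accF (.p, u, s) ∧ accF (.p0, u, s) := by
  rw [accF_all' .t0 (none :: u) s (by simp) (by simp [unF])]
  simp [nxF, keep_tail]

theorem a_t0_bit (b : Bool) (u : List (Option Bool)) (s : List Bool) :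
    ¬ accF (.t0, some b :: u, s) := by
  rw [accF_all' .t0 (some b :: u) s (by simp) (by simp [unF])]
  simp [nxF]

theorem a_t0_nil (s : List Bool) : ¬ accF (.t0, [], s) := by
  rw [accF_all' .t0 [] s (by simp) (by simp [unF])]
  simp [nxF]

theorem a_c_bit (g : Gl) (r : Cm) (x y : Bool) (u : List (Option Bool)) (s : List Bool) :
    accF (.c g r, some x :: u, y :: s) ↔ accF (.c g (upd r x y), u, s) := by
  rw [accF_ex' (.c g r) (some x :: u) (y :: s) (by simp) (by simp [unF])]
  simp [nxF]

theorem a_c_bit_nil (g : Gl) (r : Cm) (x : Bool) (u : List (Option Bool)) :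
    ¬ accF (.c g r, some x :: u, []) := by
  rw [accF_ex' (.c g r) (some x :: u) [] (by simp) (by simp [unF])]
  simp [nxF]

theorem a_c_sep (g : Gl) (r : Cm) (u : List (Option Bool)) :
    accF (.c g r, none :: u, []) ↔ sat g r = true := by
  rw [accF_ex' (.c g r) (none :: u) [] (by simp) (by simp [unF])]
  by_cases h : sat g r = true <;> simp [nxF, h, accF_fin]

theorem a_c_sep_cons (g : Gl) (r : Cm) (u : List (Option Bool)) (y : Bool) (s : List Bool) :
    ¬ accF (.c g r, none :: u, y :: s) := by
  rw [accF_ex' (.c g r) (none :: u) (y :: s) (by simp) (by simp [unF])]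
  simp [nxF]

theorem a_c_nil (g : Gl) (r : Cm) :
    accF (.c g r, [], []) ↔ sat g r = true := by
  rw [accF_ex' (.c g r) [] [] (by simp) (by simp [unF])]
  by_cases h : sat g r = true <;> simp [nxF, h, accF_fin]

theorem a_c_nil_cons (g : Gl) (r : Cm) (y : Bool) (s : List Bool) :
    ¬ accF (.c g r, [], y :: s) := by
  rw [accF_ex' (.c g r) [] (y :: s) (by simp) (by simp [unF])]
  simp [nxF]

end part6

section part7

/-- comparison of two bit lists, least significant bit first. -/
def rc : Cm → List Bool → List Bool → Cm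
  | r, x :: z, y :: σ => rc (upd r x y) z σ
  | r, _, _ => r

/-- the word with the given blocks. -/
def enc : List (List Bool) → List (Option Bool)
  | [] => []
  | z :: zs => none :: (z.map some ++ enc zs)

/-- the first block of `zs` that is at least `σ` exists and equals `σ`. -/
def EvL (σ : List Bool) : List (List Bool) → Prop
  | [] => False
  | z :: zs => (z.length = σ.length ∧ rc .eq z σ = .eq) ∨
      ((z.length = σ.length ∧ rc .eq z σ = .lt) ∧ EvL σ zs)

theorem accC (g : Gl) (zs : List (List Bool)) : ∀ (z : List Bool) (r : Cm) (σ : List Bool),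
    accF (.c g r, z.map some ++ enc zs, σ) ↔ z.length = σ.length ∧ sat g (rc r z σ) = true := by
  intro z
  induction z with
  | nil =>
    intro r σ
    cases zs with
    | nil =>
      cases σ with
      | nil => simp [enc, a_c_nil, rc]
      | cons y σ => simp [enc, a_c_nil_cons]
    | cons z' zs =>
      cases σ with
      | nil => simp [enc, a_c_sep, rc]
      | cons y σ => simp [enc, a_c_sep_cons]
  | cons x z ih =>
    intro r σ
    cases σ with
    | nil => simp [a_c_bit_nil]
    | cons y σ =>
      rw [List.map_cons, List.cons_append, a_c_bit, ih]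
      simp [rc]

theorem accK (zs : List (List Bool)) (σ : List Bool) : ∀ z : List Bool,
    accF (.k, z.map some ++ enc zs, σ) ↔ accF (.s, enc zs, σ) := by
  intro z
  induction z with
  | nil =>
    cases zs with
    | nil => simp [enc, a_k_nil, a_s_nil]
    | cons z' zs => simp [enc, a_k_sep]
  | cons x z ih => rw [List.map_cons, List.cons_append, a_k_bit, ih]

theorem sat_eq (r : Cm) : sat .eq r = true ↔ r = .eq := by cases r <;> simp [sat]
theorem sat_lt (r : Cm) : sat .lt r = true ↔ r = .lt := by cases r <;> simp [sat]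
theorem sat_le (r : Cm) : sat .le r = true ↔ r ≠ .gt := by cases r <;> simp [sat]
theorem sat_len (r : Cm) : sat .len r = true := by cases r <;> simp [sat]

theorem accS (σ : List Bool) : ∀ zs : List (List Bool),
    accF (.s, enc zs, σ) ↔ EvL σ zs := by
  intro zs
  induction zs with
  | nil => simp [enc, a_s_nil, EvL]
  | cons z zs ih =>
    have h1 := accC .eq zs z .eq σ
    have h2 := accC .lt zs z .eq σ
    rw [enc, a_s_sep, a_v_sep, h1, h2, accK, ih, sat_eq, sat_lt, EvL]

theorem accH (z : List Bool) (zs : List (List Bool)) (σ : List Bool) :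
    accF (.h, enc (z :: zs), σ) ↔ (z.length = σ.length ∧ rc .eq z σ ≠ .gt) ∨ EvL σ zs := by
  rw [enc, a_h_sep, accC, accK, accS, sat_le]

theorem accP_bits (u : List (Option Bool)) : ∀ (z σ : List Bool),
    accF (.p, z.map some ++ u, σ) ↔ ∀ τ : List Bool, τ.length = z.length →
      accF (.p, u, τ ++ σ) := by
  intro z
  induction z with
  | nil =>
    intro σ
    constructor
    · intro h τ hτ
      have : τ = [] := by simpa using hτ
      subst this
      exact h
    · intro h
      exact h [] rfl
  | cons x z ih =>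
    intro σ
    rw [List.map_cons, List.cons_append, a_p_bit, ih, ih]
    constructor
    · rintro ⟨h1, h2⟩ τ hτ
      rcases List.eq_nil_or_concat' τ with hn | ⟨τ', b, hn⟩
      · subst hn
        simp at hτ
      · subst hn
        simp at hτ
        rw [List.append_assoc]
        cases b
        · exact h2 τ' hτ
        · exact h1 τ' hτ
    · intro h
      refine ⟨fun τ hτ => ?_, fun τ hτ => ?_⟩
      · have := h (τ ++ [true]) (by simp [hτ])
        rwa [List.append_assoc] at this
      · have := h (τ ++ [false]) (by simp [hτ])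
        rwa [List.append_assoc] at this

theorem accP0_bits (u : List (Option Bool)) : ∀ (z σ : List Bool),
    accF (.p0, z.map some ++ u, σ) ↔ ∀ τ : List Bool, τ.length = z.length →
      accF (.p0, u, τ ++ σ) := by
  intro z
  induction z with
  | nil =>
    intro σ
    constructor
    · intro h τ hτ
      have : τ = [] := by simpa using hτ
      subst this
      exact h
    · intro h
      exact h [] rfl
  | cons x z ih =>
    intro σ
    rw [List.map_cons, List.cons_append, a_p0_bit, ih, ih]
    constructor
    · rintro ⟨h1, h2⟩ τ hτ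
      rcases List.eq_nil_or_concat' τ with hn | ⟨τ', b, hn⟩
      · subst hn
        simp at hτ
      · subst hn
        simp at hτ
        rw [List.append_assoc]
        cases b
        · exact h2 τ' hτ
        · exact h1 τ' hτ
    · intro h
      refine ⟨fun τ hτ => ?_, fun τ hτ => ?_⟩
      · have := h (τ ++ [true]) (by simp [hτ])
        rwa [List.append_assoc] at this
      · have := h (τ ++ [false]) (by simp [hτ])
        rwa [List.append_assoc] at this

/-- local condition at the block after a block of length `k`. -/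
def CP (k : ℕ) : List (List Bool) → Prop
  | [] => True
  | z :: zs => ∀ τ : List Bool, τ.length = k →
      z.length = k ∧ (rc .eq z τ ≠ .gt ∨ EvL τ zs)

/-- all local conditions. -/
def TT : List (List Bool) → Prop
  | [] => True
  | z :: zs => TT zs ∧ CP z.length zs

theorem accP (z : List Bool) (zs : List (List Bool)) :
    accF (.p, z.map some ++ enc zs, []) ↔ CP z.length zs := by
  rw [accP_bits]
  cases zs with
  | nil => simp [enc, a_p_nil, CP]
  | cons z' zs =>
    simp only [List.append_nil, CP]
    constructor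
    · intro h τ hτ
      have h1 := h τ hτ
      rw [enc, a_p_sep, accC] at h1
      have h2 := h1.2
      rw [← enc, accH] at h2
      refine ⟨by rw [h1.1.1, hτ], ?_⟩
      rcases h2 with h2 | h2
      · exact Or.inl h2.2
      · exact Or.inr h2
    · intro h τ hτ
      obtain ⟨h1, h2⟩ := h τ hτ
      rw [enc, a_p_sep, accC]
      refine ⟨⟨by rw [h1, hτ], sat_len _⟩, ?_⟩
      rw [← enc, accH]
      rcases h2 with h2 | h2
      · exact Or.inl ⟨by rw [h1, hτ], h2⟩
      · exact Or.inr h2

theorem accP0 (z : List Bool) (zs : List (List Bool)) :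
    accF (.p0, z.map some ++ enc zs, []) ↔
      ∀ τ : List Bool, τ.length = z.length → EvL τ zs := by
  rw [accP0_bits]
  simp only [List.append_nil]
  cases zs with
  | nil => simp [enc, a_p0_nil, EvL]
  | cons z' zs =>
    have : ∀ τ : List Bool, accF (.p0, enc (z' :: zs), τ) ↔ EvL τ (z' :: zs) := by
      intro τ
      rw [← accS, enc, a_p0_sep]
    simp only [this]

theorem accT_bits (u : List (Option Bool)) (σ : List Bool) : ∀ z : List Bool,
    accF (.t, z.map some ++ u, σ) ↔ accF (.t, u, σ) := by
  intro z
  induction z with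
  | nil => exact Iff.rfl
  | cons x z ih => rw [List.map_cons, List.cons_append, a_t_bit, ih]

theorem accT : ∀ zs : List (List Bool), accF (.t, enc zs, []) ↔ TT zs := by
  intro zs
  induction zs with
  | nil => simp [enc, a_t_nil, TT]
  | cons z zs ih => rw [enc, a_t_sep, accT_bits, accP, ih, TT]

theorem accT0 (z : List Bool) (zs : List (List Bool)) :
    accF (.t0, enc (z :: zs), []) ↔ (TT zs ∧ CP z.length zs) ∧
      ∀ τ : List Bool, τ.length = z.length → EvL τ zs := by
  rw [enc, a_t0_sep, accT_bits, accT, accP, accP0]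
  tauto

theorem decode : ∀ w : List (Option Bool), ∃ (y : List Bool) (zs : List (List Bool)),
    w = y.map some ++ enc zs := by
  intro w
  induction w with
  | nil => exact ⟨[], [], rfl⟩
  | cons a w ih =>
    obtain ⟨y, zs, h⟩ := ih
    cases a with
    | none => exact ⟨[], y :: zs, by simp [enc, h]⟩
    | some b => exact ⟨b :: y, zs, by simp [h]⟩

theorem accepted_form {w : List (Option Bool)} (hw : accF (.t0, w, [])) :
    ∃ z zs, w = enc (z :: zs) := by
  obtain ⟨y, zs, h⟩ := decode w
  cases y with
  | nil =>
    cases zs with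
    | nil =>
      exfalso
      subst h
      exact a_t0_nil _ hw
    | cons z zs => exact ⟨z, zs, by simpa using h⟩
  | cons b y =>
    exfalso
    subst h
    exact a_t0_bit _ _ _ hw

/-! ### numbers -/

/-- value of a bit list, least significant bit first. -/
def val : List Bool → ℕ
  | [] => 0
  | b :: z => b.toNat + 2 * val z

theorem val_lt (z : List Bool) : val z < 2 ^ z.length := by
  induction z with
  | nil => simp [val]
  | cons b z ih =>
    rw [val, List.length_cons, pow_succ]
    have : b.toNat ≤ 1 := Bool.toNat_le b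
    omega

/-- the bits of `j`, of length `k`. -/
def bits : ℕ → ℕ → List Bool
  | 0, _ => []
  | k + 1, j => (decide (j % 2 = 1)) :: bits k (j / 2)

theorem bits_length (k : ℕ) : ∀ j, (bits k j).length = k := by
  induction k with
  | zero => intro j; rfl
  | succ k ih => intro j; simp [bits, ih]

theorem val_bits (k : ℕ) : ∀ j, j < 2 ^ k → val (bits k j) = j := by
  induction k with
  | zero =>
    intro j hj
    simp at hj
    simp [bits, val, hj]
  | succ k ih =>
    intro j hj
    rw [bits, val, ih (j / 2) (by rw [pow_succ] at hj; omega)]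
    rcases Nat.mod_two_eq_zero_or_one j with h | h
    · simp [h]; omega
    · simp [h]; omega

theorem rc_eq (z : List Bool) : ∀ (σ : List Bool) (r : Cm), z.length = σ.length →
    rc r z σ = if val z < val σ then .lt else if val σ < val z then .gt else r := by
  induction z with
  | nil =>
    intro σ r h
    cases σ with
    | nil => simp [rc]
    | cons y σ => simp at h
  | cons x z ih =>
    intro σ r h
    cases σ with
    | nil => simp at h
    | cons y σ =>
      simp only [List.length_cons, Nat.add_right_cancel_iff] at h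
      rw [rc, ih σ _ h, val, val]
      rcases lt_trichotomy (val z) (val σ) with h1 | h1 | h1
      · have h2 : x.toNat + 2 * val z < y.toNat + 2 * val σ := by
          have : x.toNat ≤ 1 := Bool.toNat_le x
          omega
        simp [h1, h2]
      · rw [h1]
        cases x <;> cases y <;> simp [upd]
      · have h2 : y.toNat + 2 * val σ < x.toNat + 2 * val z := by
          have : y.toNat ≤ 1 := Bool.toNat_le y
          omega
        have h3 : ¬ val z < val σ := by omega
        have h4 : ¬ (x.toNat + 2 * val z < y.toNat + 2 * val σ) := by omega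
        simp [h1, h2, h3, h4]

/-- the first element of the list that is at least `j` exists and is `j`. -/
def Ev (j : ℕ) : List ℕ → Prop
  | [] => False
  | a :: t => a = j ∨ (a < j ∧ Ev j t)

/-- hereditary condition. -/
def Hered : List ℕ → Prop
  | [] => True
  | a :: t => (∀ j < a, Ev j t) ∧ Hered t

theorem evL_iff (k : ℕ) (σ : List Bool) (hσ : σ.length = k) : ∀ zs : List (List Bool),
    (∀ z ∈ zs, z.length = k) → (EvL σ zs ↔ Ev (val σ) (zs.map val)) := by
  intro zs
  induction zs with
  | nil => intro _; exact Iff.rfl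
  | cons z zs ih =>
    intro h
    have hz : z.length = σ.length := by rw [h z (by simp), hσ]
    rw [EvL, List.map_cons, Ev, ih (fun z' hz' => h z' (by simp [hz'])), rc_eq z σ _ hz]
    simp only [hz, true_and]
    rcases lt_trichotomy (val z) (val σ) with h1 | h1 | h1
    · simp [h1, h1.ne]
    · simp [h1]
    · have h3 : ¬ val z < val σ := by omega
      have h4 : ¬ val z = val σ := by omega
      simp [h1, h3, h4]

theorem TTCP_iff : ∀ (zs : List (List Bool)) (k : ℕ),
    (TT zs ∧ CP k zs) ↔ ((∀ z ∈ zs, z.length = k) ∧ Hered (zs.map val)) := by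
  intro zs
  induction zs with
  | nil => intro k; simp [TT, CP, Hered]
  | cons z zs ih =>
    intro k
    rw [TT, ih z.length, CP, List.map_cons, Hered]
    constructor
    · rintro ⟨⟨h1, h2⟩, h3⟩
      have hz : z.length = k := (h3 (List.replicate k false) (by simp)).1
      rw [hz] at h1
      refine ⟨?_, ?_, h2⟩
      · intro z' hz'
        rcases List.mem_cons.1 hz' with h | h
        · rw [h, hz]
        · exact h1 z' h
      · intro j hj
        have hj2 : j < 2 ^ k := by
          have := val_lt z
          rw [hz] at this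
          omega
        have h4 := h3 (bits k j) (bits_length k j)
        rw [rc_eq z _ _ (by rw [bits_length, hz]), val_bits k j hj2] at h4
        rcases h4.2 with h5 | h5
        · exfalso
          apply h5
          have : ¬ val z < j := by omega
          simp [this, hj]
        · rw [evL_iff k _ (bits_length k j) zs h1, val_bits k j hj2] at h5
          exact h5
    · rintro ⟨h1, h2, h3⟩
      have hz : z.length = k := h1 z (by simp)
      have h1' : ∀ z' ∈ zs, z'.length = k := fun z' hz' => h1 z' (by simp [hz'])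
      refine ⟨⟨by rw [hz]; exact h1', h3⟩, ?_⟩
      intro τ hτ
      refine ⟨hz, ?_⟩
      rw [rc_eq z τ _ (by rw [hz, hτ]), evL_iff k τ hτ zs h1']
      by_cases h4 : val τ < val z
      · exact Or.inr (h2 _ h4)
      · left
        simp [h4]
        split <;> simp

/-- the structure of the language. -/
theorem lang_iff (z : List Bool) (zs : List (List Bool)) :
    accF (.t0, enc (z :: zs), []) ↔ (∀ z' ∈ zs, z'.length = z.length) ∧
      Hered (zs.map val) ∧ ∀ j < 2 ^ z.length, Ev j (zs.map val) := by
  rw [accT0, TTCP_iff, and_assoc]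
  refine and_congr_right fun h1 => and_congr_right fun h2 => ?_
  constructor
  · intro h j hj
    have := h (bits z.length j) (bits_length _ _)
    rwa [evL_iff z.length _ (bits_length _ _) zs h1, val_bits _ j hj] at this
  · intro h τ hτ
    rw [evL_iff z.length τ hτ zs h1]
    apply h
    have := val_lt τ
    rwa [hτ] at this

theorem Ev_split {j : ℕ} : ∀ {t : List ℕ}, Ev j t →
    ∃ l r, t = l ++ j :: r ∧ ∀ x ∈ l, x < j := by
  intro t
  induction t with
  | nil => intro h; exact h.elim
  | cons a t ih =>
    rintro (h | ⟨h1, h2⟩)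
    · exact ⟨[], t, by rw [h]; rfl, by simp⟩
    · obtain ⟨l, r, h3, h4⟩ := ih h2
      refine ⟨a :: l, r, by rw [h3]; rfl, ?_⟩
      intro x hx
      rcases List.mem_cons.1 hx with h | h
      · rw [h]; exact h1
      · exact h4 x h

theorem Hered_suffix : ∀ (l r : List ℕ), Hered (l ++ r) → Hered r := by
  intro l
  induction l with
  | nil => intro r h; exact h
  | cons a l ih => intro r h; exact ih r h.2

theorem long (i : ℕ) : ∀ t : List ℕ, Hered t → (∀ j < i, Ev j t) →
    ∃ l r, t = l ++ r ∧ (∀ x ∈ l, x < i) ∧ 2 ^ i ≤ l.length + 1 := by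
  induction i with
  | zero =>
    intro t _ _
    exact ⟨[], t, rfl, by simp, by simp⟩
  | succ i ih =>
    intro t h1 h2
    obtain ⟨l, r, e1, e2⟩ := Ev_split (h2 i (by omega))
    obtain ⟨l1, r1, f1, f2, f3⟩ := ih t h1 (fun j hj => h2 j (by omega))
    have h3 : Hered (i :: r) := Hered_suffix l _ (by rw [← e1]; exact h1)
    obtain ⟨l2, r2, g1, g2, g3⟩ := ih r h3.2 h3.1
    have hle : l1.length ≤ l.length := by
      by_contra hc
      have h4 : t[l.length]? = some i := by
        rw [e1]
        simp
      rw [f1, List.getElem?_append_left (by omega)] at h4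
      have h5 := List.mem_of_getElem? h4
      exact absurd (f2 i h5) (by omega)
    refine ⟨l ++ i :: l2, r2, by rw [e1, g1]; simp, ?_, ?_⟩
    · intro x hx
      simp only [List.mem_append, List.mem_cons] at hx
      rcases hx with hx | hx | hx
      · have := e2 x hx; omega
      · omega
      · have := g2 x hx; omega
    · simp only [List.length_append, List.length_cons]
      rw [pow_succ]
      omega

/-- ruler sequences. -/
def rul : ℕ → List ℕ
  | 0 => []
  | i + 1 => rul i ++ i :: rul i

theorem rul_lt (i : ℕ) : ∀ x ∈ rul i, x < i := by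
  induction i with
  | zero => intro x hx; simp [rul] at hx
  | succ i ih =>
    intro x hx
    simp only [rul, List.mem_append, List.mem_cons] at hx
    rcases hx with hx | hx | hx
    · have := ih x hx; omega
    · omega
    · have := ih x hx; omega

theorem Ev_append {j : ℕ} : ∀ (l r : List ℕ), (∀ x ∈ l, x < j) → Ev j r → Ev j (l ++ r) := by
  intro l
  induction l with
  | nil => intro r _ h; exact h
  | cons a l ih =>
    intro r h1 h2
    exact Or.inr ⟨h1 a (by simp), ih r (fun x hx => h1 x (by simp [hx])) h2⟩

theorem Ev_rul (i : ℕ) : ∀ (j : ℕ) (r : List ℕ), j < i → Ev j (rul i ++ r) := by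
  induction i with
  | zero => intro j r h; omega
  | succ i ih =>
    intro j r h
    rw [rul, List.append_assoc]
    by_cases hj : j < i
    · exact ih j _ hj
    · have : j = i := by omega
      subst this
      exact Ev_append _ _ (rul_lt j) (Or.inl rfl)

theorem Hered_rul (i : ℕ) : ∀ r : List ℕ, Hered r → Hered (rul i ++ r) := by
  induction i with
  | zero => intro r h; exact h
  | succ i ih =>
    intro r h
    rw [rul, List.append_assoc]
    apply ih
    exact ⟨fun j hj => Ev_rul i j r hj, ih r h⟩

/-- blocks of the ruler word. -/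
def rb (k : ℕ) : List (List Bool) := (rul (2 ^ k)).map (bits k)

theorem rb_val (k : ℕ) : (rb k).map val = rul (2 ^ k) := by
  rw [rb, List.map_map]
  conv_rhs => rw [← List.map_id (rul (2 ^ k))]
  apply List.map_congr_left
  intro x hx
  exact val_bits k x (rul_lt _ x hx)

theorem rb_len (k : ℕ) : ∀ z ∈ rb k, z.length = k := by
  intro z hz
  obtain ⟨j, _, rfl⟩ := List.mem_map.1 hz
  exact bits_length k j

theorem rb_ne (k : ℕ) : rb k ≠ [] := by
  intro h
  have h1 := congrArg List.length h
  rw [rb, List.length_map] at h1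
  obtain ⟨m, hm⟩ : ∃ m, 2 ^ k = m + 1 := ⟨2 ^ k - 1, by have := Nat.one_le_two_pow (n := k); omega⟩
  rw [hm, rul] at h1
  simp at h1

theorem MF_nonregular : ¬ MF.lang.IsRegular := by
  apply not_regular_of_sep (fun i => none :: (List.replicate i false).map some)
    (fun j => enc (rb j))
  intro i j
  have h1 : ((none :: (List.replicate i false).map some) ++ enc (rb j) ∈ MF.lang) ↔
      accF (.t0, enc (List.replicate i false :: rb j), []) := Iff.rfl
  rw [h1, lang_iff, rb_val]
  simp only [List.length_replicate]
  constructor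
  · rintro ⟨h2, _⟩
    obtain ⟨z, zs, hz⟩ := List.exists_cons_of_ne_nil (rb_ne j)
    have h3 := h2 z (by rw [hz]; simp)
    have h4 := rb_len j z (by rw [hz]; simp)
    omega
  · rintro rfl
    refine ⟨rb_len i, ?_, ?_⟩
    · have := Hered_rul (2 ^ i) [] trivial
      simpa using this
    · intro j hj
      have := Ev_rul (2 ^ i) j [] hj
      simpa using this

end part7

section part8

/-- height budget of a state. -/
def hb (k : ℕ) (q : St) (m n : ℕ) : Prop :=
  match q with
  | .t0 => n = 0
  | .t => n = 0
  | .p => n + m ≤ k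
  | .p0 => n + m ≤ k
  | _ => n ≤ k

/-- invariant of the computations on words with all blocks of length `k`. -/
def InvF (k : ℕ) (c : St × List (Option Bool) × List Bool) : Prop :=
  ∃ (y : List Bool) (zs : List (List Bool)), c.2.1 = y.map some ++ enc zs ∧
    (∀ z ∈ zs, z.length = k) ∧ hb k c.1 y.length c.2.2.length

theorem len_keep (s : List Bool) (x : List Bool) :
    ((x ++ s.head?.toList) ++ s.tail).length = x.length + s.length := by
  rw [List.append_assoc, keep_tail, List.length_append]

theorem InvF_step (k : ℕ) (c c' : St × List (Option Bool) × List Bool)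
    (h : stepF c c') (hI : InvF k c) : InvF k c' := by
  obtain ⟨q, u, s⟩ := c
  obtain ⟨y, zs, hu, hz, hh⟩ := hI
  simp only at hu hh
  rw [stepF_iff] at h
  obtain ⟨h0, x, hx, h⟩ := h
  -- new decomposition of the input
  rcases y with _ | ⟨b, y⟩
  · rcases zs with _ | ⟨z, zs⟩
    · -- end of the input
      simp only [enc, List.map_nil, List.append_nil] at hu
      subst hu
      have hc' : c' = (x.1, [], x.2.1 ++ s.tail) := by
        rcases h with ⟨_, h⟩ | ⟨_, h, _⟩
        · exact h
        · exact absurd rfl h
      subst hc'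
      refine ⟨[], [], rfl, by simp, ?_⟩
      simp only [List.head?_nil] at hx
      simp only [List.length_nil] at hh ⊢
      cases q with
      | t =>
        simp [nxF] at hx
        subst hx
        simp only [hb, keep_tail] at hh ⊢
        omega
      | p =>
        simp [nxF] at hx
        subst hx
        simp only [hb, keep_tail] at hh ⊢
        omega
      | c g r =>
        rcases s with _ | ⟨a, s⟩
        · simp [nxF] at hx
          obtain ⟨_, hx⟩ := hx
          subst hx
          simp [hb]
        · simp [nxF] at hx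
      | t0 => simp [nxF] at hx
      | p0 => simp [nxF] at hx
      | s => simp [nxF] at hx
      | v => simp [nxF] at hx
      | k => simp [nxF] at hx
      | h => simp [nxF] at hx
      | fin => exact absurd rfl h0
    · -- a separator
      simp only [enc, List.map_nil, List.nil_append] at hu
      subst hu
      simp only [List.head?_cons] at hx
      simp only [List.length_nil] at hh
      have hzl : z.length = k := hz z (by simp)
      have hz' : ∀ z' ∈ zs, z'.length = k := fun z' hz'' => hz z' (by simp [hz''])
      have hstay : ∀ (q' : St) (s' : List Bool), hb k q' 0 s'.length →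
          InvF k (q', none :: (z.map some ++ enc zs), s') := fun q' s' hq =>
        ⟨[], z :: zs, by simp [enc], hz, by simpa using hq⟩
      have hmove : ∀ (q' : St) (s' : List Bool), hb k q' z.length s'.length →
          InvF k (q', z.map some ++ enc zs, s') := fun q' s' hq =>
        ⟨z, zs, rfl, hz', hq⟩
      cases q with
      | t0 =>
        simp [nxF] at hx
        simp only [hb] at hh
        rcases hx with hx | hx | hx <;> subst hx <;> simp at h <;> subst h <;>
          apply hmove <;> simp only [hb, keep_tail] <;> omega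
      | t =>
        simp [nxF] at hx
        simp only [hb] at hh
        rcases hx with hx | hx <;> subst hx <;> simp at h <;> subst h <;>
          apply hmove <;> simp only [hb, keep_tail] <;> omega
      | p =>
        simp [nxF] at hx
        simp only [hb] at hh
        rcases hx with hx | hx <;> subst hx <;> simp at h <;> subst h
        · apply hmove; simp only [hb, keep_tail]; omega
        · apply hstay; simp only [hb, keep_tail]; omega
      | p0 =>
        simp [nxF] at hx
        simp only [hb] at hh
        subst hx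
        simp at h
        subst h
        apply hstay; simp only [hb, keep_tail]; omega
      | s =>
        simp [nxF] at hx
        simp only [hb] at hh
        rcases hx with hx | hx <;> subst hx <;> simp at h <;> subst h
        · apply hmove; simp only [hb, keep_tail]; omega
        · apply hstay; simp only [hb, keep_tail]; omega
      | v =>
        simp [nxF] at hx
        simp only [hb] at hh
        rcases hx with hx | hx <;> subst hx <;> simp at h <;> subst h <;>
          apply hmove <;> simp only [hb, keep_tail] <;> omega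
      | k =>
        simp [nxF] at hx
        simp only [hb] at hh
        subst hx
        simp at h
        subst h
        apply hstay; simp only [hb, keep_tail]; omega
      | h =>
        simp [nxF] at hx
        simp only [hb] at hh
        rcases hx with hx | hx <;> subst hx <;> simp at h <;> subst h <;>
          apply hmove <;> simp only [hb, keep_tail] <;> omega
      | c g r =>
        rcases s with _ | ⟨a, s⟩
        · simp [nxF] at hx
          obtain ⟨_, hx⟩ := hx
          subst hx
          simp at h
          subst h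
          apply hstay; simp [hb]
        · simp [nxF] at hx
      | fin => exact absurd rfl h0
  · -- a bit
    simp only [List.map_cons, List.cons_append] at hu
    subst hu
    simp only [List.head?_cons] at hx
    simp only [List.length_cons] at hh
    have hmove : ∀ (q' : St) (s' : List Bool), hb k q' y.length s'.length →
        InvF k (q', y.map some ++ enc zs, s') := fun q' s' hq =>
      ⟨y, zs, rfl, hz, hq⟩
    cases q with
    | t0 => simp [nxF] at hx
    | t =>
      simp [nxF] at hx
      simp only [hb] at hh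
      subst hx
      simp at h
      subst h
      apply hmove; simp only [hb, keep_tail]; omega
    | p =>
      simp [nxF] at hx
      simp only [hb] at hh
      rcases hx with hx | hx <;> subst hx <;> simp at h <;> subst h <;>
        apply hmove <;> simp only [hb, keep_tail, List.length_cons] <;> omega
    | p0 =>
      simp [nxF] at hx
      simp only [hb] at hh
      rcases hx with hx | hx <;> subst hx <;> simp at h <;> subst h <;>
        apply hmove <;> simp only [hb, keep_tail, List.length_cons] <;> omega
    | s => simp [nxF] at hx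
    | v => simp [nxF] at hx
    | k =>
      simp [nxF] at hx
      simp only [hb] at hh
      subst hx
      simp at h
      subst h
      apply hmove; simp only [hb, keep_tail]; omega
    | h => simp [nxF] at hx
    | c g r =>
      rcases s with _ | ⟨a, s⟩
      · simp [nxF] at hx
      · simp [nxF] at hx
        simp only [hb, List.length_cons] at hh
        subst hx
        simp at h
        subst h
        apply hmove; simp only [hb]; omega
    | fin => exact absurd rfl h0

theorem hb_le {k : ℕ} {q : St} {m n : ℕ} (h : hb k q m n) : n ≤ k := by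
  cases q <;> simp only [hb] at h <;> omega

theorem enc_length (zs : List (List Bool)) : zs.length ≤ (enc zs).length := by
  induction zs with
  | nil => simp [enc]
  | cons z zs ih =>
    simp only [enc, List.length_cons, List.length_append]
    omega

theorem MF_middle : MF.MiddleBound (fun n => Nat.log 2 (Nat.log 2 n)) := by
  intro w hw c hc
  have hw' : accF (.t0, w, []) := hw
  obtain ⟨z, zs, rfl⟩ := accepted_form hw'
  obtain ⟨h1, h2, h3⟩ := (lang_iff z zs).1 hw'
  have hI : InvF z.length c := APDA.reach_inv (M := MF) (InvF z.length)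
    (fun c c' h hp => InvF_step _ c c' h hp) hc
    ⟨[], z :: zs, by simp [APDA.init], by
      intro z' hz'
      rcases List.mem_cons.1 hz' with h | h
      · rw [h]
      · exact h1 z' h, rfl⟩
  obtain ⟨y, zs', _, _, hh⟩ := hI
  have h4 : c.2.2.length ≤ z.length := hb_le hh
  refine h4.trans ?_
  obtain ⟨l, r, e1, e2, e3⟩ := long (2 ^ z.length) _ h2 h3
  have e4 : l.length ≤ zs.length := by
    have := congrArg List.length e1
    simp only [List.length_map, List.length_append] at this
    omega
  have e5 := enc_length (z :: zs)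
  simp only [List.length_cons] at e5
  have e6 : 2 ^ 2 ^ z.length ≤ (enc (z :: zs)).length := by omega
  exact Nat.le_log_of_pow_le (by norm_num) (Nat.le_log_of_pow_le (by norm_num) e6)

/-- rank of a state of the ruler machine. -/
def rkF : St → ℕ
  | .t0 => 1
  | .t => 1
  | .p0 => 3
  | .p => 2
  | .s => 2
  | .v => 1
  | .k => 3
  | .h => 1
  | .c _ _ => 1
  | .fin => 0

theorem rkF_le (q : St) : rkF q ≤ 3 := by
  cases q <;> simp [rkF]

theorem MF_rank (c c' : St × List (Option Bool) × List Bool) (h : stepF c c')
    (hu : c'.2.1 = c.2.1) : rkF c'.1 < rkF c.1 := by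
  obtain ⟨q, u, s⟩ := c
  rw [stepF_iff] at h
  obtain ⟨h0, x, hx, h⟩ := h
  have hstay : x.2.2 = false ∧ c' = (x.1, u, x.2.1 ++ s.tail) := by
    rcases h with h | ⟨_, h1, h2⟩
    · exact h
    · exfalso
      subst h2
      simp only at hu
      cases u with
      | nil => exact h1 rfl
      | cons a u =>
        have := congrArg List.length hu
        simp at this
  obtain ⟨h1, h2⟩ := hstay
  subst h2
  simp only
  rcases u with _ | ⟨a, u⟩
  · simp only [List.head?_nil] at hx
    cases q with
    | t => simp [nxF] at hx; subst hx; simp [rkF]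
    | p => simp [nxF] at hx; subst hx; simp [rkF]
    | c g r =>
      rcases s with _ | ⟨b, s⟩
      · simp [nxF] at hx
        obtain ⟨_, hx⟩ := hx
        subst hx
        simp [rkF]
      · simp [nxF] at hx
    | t0 => simp [nxF] at hx
    | p0 => simp [nxF] at hx
    | s => simp [nxF] at hx
    | v => simp [nxF] at hx
    | k => simp [nxF] at hx
    | h => simp [nxF] at hx
    | fin => exact absurd rfl h0
  · simp only [List.head?_cons] at hx
    rcases a with _ | b
    · cases q with
      | t0 =>
        simp [nxF] at hx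
        rcases hx with hx | hx | hx <;> subst hx <;> simp at h1
      | t =>
        simp [nxF] at hx
        rcases hx with hx | hx <;> subst hx <;> simp at h1
      | p =>
        simp [nxF] at hx
        rcases hx with hx | hx <;> subst hx
        · simp at h1
        · simp [rkF]
      | p0 => simp [nxF] at hx; subst hx; simp [rkF]
      | s =>
        simp [nxF] at hx
        rcases hx with hx | hx <;> subst hx
        · simp at h1
        · simp [rkF]
      | v =>
        simp [nxF] at hx
        rcases hx with hx | hx <;> subst hx <;> simp at h1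
      | k => simp [nxF] at hx; subst hx; simp [rkF]
      | h =>
        simp [nxF] at hx
        rcases hx with hx | hx <;> subst hx <;> simp at h1
      | c g r =>
        rcases s with _ | ⟨b, s⟩
        · simp [nxF] at hx
          obtain ⟨_, hx⟩ := hx
          subst hx
          simp [rkF]
        · simp [nxF] at hx
      | fin => exact absurd rfl h0
    · cases q with
      | t0 => simp [nxF] at hx
      | t => simp [nxF] at hx; subst hx; simp at h1
      | p =>
        simp [nxF] at hx
        rcases hx with hx | hx <;> subst hx <;> simp at h1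
      | p0 =>
        simp [nxF] at hx
        rcases hx with hx | hx <;> subst hx <;> simp at h1
      | s => simp [nxF] at hx
      | v => simp [nxF] at hx
      | k => simp [nxF] at hx; subst hx; simp at h1
      | h => simp [nxF] at hx
      | c g r =>
        rcases s with _ | ⟨b', s⟩
        · simp [nxF] at hx
        · simp [nxF] at hx; subst hx; simp at h1
      | fin => exact absurd rfl h0

theorem MF_realtime : MF.Realtime :=
  APDA.realtime_of_rank (M := MF) rkF 3 rkF_le MF_rank

theorem loglog_bigO :
    (fun n : ℕ => ((Nat.log 2 (Nat.log 2 n) : ℕ) : ℝ)) =O[atTop]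
      (fun n : ℕ => Real.log (Real.log n)) := by
  have htend : Tendsto (fun n : ℕ => Real.log (Real.log n)) atTop atTop :=
    Real.tendsto_log_atTop.comp (Real.tendsto_log_atTop.comp tendsto_natCast_atTop_atTop)
  have hl2 : 0 < Real.log 2 := Real.log_pos (by norm_num)
  set c0 : ℝ := |Real.log (Real.log 2)| with hc0
  have hc0' : 0 ≤ c0 := abs_nonneg _
  apply IsBigO.of_bound ((1 + c0) / Real.log 2)
  filter_upwards [htend.eventually_ge_atTop 1, eventually_ge_atTop 4] with n h1 hn
  have hn4 : (4 : ℝ) ≤ n := by exact_mod_cast hn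
  have hlogn : 0 < Real.log n := Real.log_pos (by linarith)
  have hm1 : 1 ≤ Nat.log 2 n := Nat.le_log_of_pow_le (by norm_num) (by omega)
  have hm1' : (1 : ℝ) ≤ Nat.log 2 n := by exact_mod_cast hm1
  have h2 : ((Nat.log 2 n : ℕ) : ℝ) ≤ Real.log n / Real.log 2 := Real.natLog_le_logb n 2
  have h3 : ((Nat.log 2 (Nat.log 2 n) : ℕ) : ℝ) ≤
      Real.log (Nat.log 2 n : ℕ) / Real.log 2 := Real.natLog_le_logb _ 2
  have h4 : Real.log ((Nat.log 2 n : ℕ) : ℝ) ≤ Real.log (Real.log n / Real.log 2) :=
    Real.log_le_log (by linarith) h2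
  rw [Real.log_div hlogn.ne' hl2.ne'] at h4
  have h5 : -Real.log (Real.log 2) ≤ c0 := neg_le_abs _
  have h6 : Real.log ((Nat.log 2 n : ℕ) : ℝ) ≤ (1 + c0) * Real.log (Real.log n) := by
    nlinarith
  rw [Real.norm_of_nonneg (by positivity), Real.norm_of_nonneg (by linarith)]
  calc ((Nat.log 2 (Nat.log 2 n) : ℕ) : ℝ) ≤ Real.log (Nat.log 2 n : ℕ) / Real.log 2 := h3
    _ ≤ ((1 + c0) * Real.log (Real.log n)) / Real.log 2 := by gcongr
    _ = (1 + c0) / Real.log 2 * Real.log (Real.log n) := by ring

theorem strong_to_middle {α : Type} {M : APDA α} {s : ℕ → ℕ} (h : M.StrongBound s) :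
    M.MiddleBound s := fun w _ c hc => h w c hc

end part8

/-- The tight bounds for the recognition of nonregular languages in strong and middle pushdown
space, for the four classes of machines. -/
theorem result :
    (∀ alternating realtime : Bool,
      TightBound alternating realtime .strong (fun n => (n : ℝ))) ∧
    (∀ realtime : Bool, TightBound false realtime .middle (fun n => (n : ℝ))) ∧
    (∀ realtime : Bool,
      TightBound true realtime .middle (fun n => Real.log (Real.log (n : ℝ)))) := by
  refine ⟨fun a r => ⟨?_, ?_⟩, fun r => ⟨?_, ?_⟩, fun r => ⟨?_, ?_⟩⟩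
  · exact ⟨Bool, inferInstance, ME, fun n => n, ⟨fun _ => ME_nondet, fun _ => ME_realtime⟩,
      ME_nonregular, ME_strong, isBigO_refl _ _⟩
  · intro α _ M s _ hs ho
    exact APDA.strong_lower M s hs ho
  · exact ⟨Bool, inferInstance, ME, fun n => n, ⟨fun _ => ME_nondet, fun _ => ME_realtime⟩,
      ME_nonregular, strong_to_middle ME_strong, isBigO_refl _ _⟩
  · intro α _ M s hM hs ho
    exact APDA.middle_nondet_lower M (hM.1 rfl) s hs ho
  · exact ⟨Option Bool, inferInstance, MF, fun n => Nat.log 2 (Nat.log 2 n),
      ⟨fun h => Bool.noConfusion h, fun _ => MF_realtime⟩, MF_nonregular, MF_middle,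
      loglog_bigO⟩
  · intro α _ M s _ hs ho
    exact APDA.middle_alt_lower M s hs ho

end Pool.Agent.Results.MP_300f36_lc.PushdownSpace
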